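import Mathlib

/-!
Positive definite integral lattices of infinite rank with finite propagation: the vectors of norm at
most two which do not decompose orthogonally fall into finite classes.
-/

set_option autoImplicit false

namespace Pool.Agent.Q184.DF

open Finset Filter

variable {V L : Type} [AddCommGroup L]

/-- `y` is not an orthogonal sum of two nonzero vectors. -/
def Ind (B : L →+ L →+ ℤ) (y : L) : Prop :=
  y ≠ 0 ∧ ∀ u v : L, u + v = y → B u v = 0 → u = 0 ∨ v = 0

/-- The data: a symmetric positive definite form with finite propagation and a lower bound. -/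
structure Dat (e : L ≃+ (V →₀ ℤ)) (B : L →+ L →+ ℤ) : Prop where
  symm : ∀ x y, B x y = B y x
  pos : ∀ x, x ≠ 0 → 0 < B x x
  lf : ∀ p, {q | B (e.symm (Finsupp.single p 1)) (e.symm (Finsupp.single q 1)) ≠ 0}.Finite
  bd : ∃ C : ℕ, ∀ x, ∑ p ∈ (e x).support, (e x p) ^ 2 ≤ C * B x x

variable {e : L ≃+ (V →₀ ℤ)} {B : L →+ L →+ ℤ}

lemma sum_sq_le {C : ℕ} (hC : ∀ x, ∑ p ∈ (e x).support, (e x p) ^ 2 ≤ C * B x x) (x : L)
    (T : Finset V) : ∑ p ∈ T, (e x p) ^ 2 ≤ C * B x x := by
  classical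
  refine le_trans ?_ (hC x)
  calc ∑ p ∈ T, (e x p) ^ 2 ≤ ∑ p ∈ T ∪ (e x).support, (e x p) ^ 2 :=
        Finset.sum_le_sum_of_subset_of_nonneg Finset.subset_union_left
          (fun _ _ _ => sq_nonneg _)
    _ = ∑ p ∈ (e x).support, (e x p) ^ 2 := by
        symm
        apply Finset.sum_subset Finset.subset_union_right
        intro p _ hp
        rw [Finsupp.notMem_support_iff.1 hp]
        ring

/-- the set of the coordinates seen by `B x` -/
def nb (e : L ≃+ (V →₀ ℤ)) (B : L →+ L →+ ℤ) (x : L) : Set V :=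
  {q | B x (e.symm (Finsupp.single q 1)) ≠ 0}

lemma expand (x : L) : x = ∑ p ∈ (e x).support, (e x p) • e.symm (Finsupp.single p 1) := by
  apply e.injective
  rw [map_sum]
  conv_lhs => rw [← Finsupp.sum_single (e x)]
  rw [Finsupp.sum]
  apply Finset.sum_congr rfl
  intro p _
  rw [map_zsmul, AddEquiv.apply_symm_apply, Finsupp.smul_single, smul_eq_mul, mul_one]

lemma nb_finite (h : Dat e B) (x : L) : (nb e B x).Finite := by
  have h1 : nb e B x ⊆ ⋃ p ∈ (e x).support,
      {q | B (e.symm (Finsupp.single p 1)) (e.symm (Finsupp.single q 1)) ≠ 0} := by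
    intro q hq
    by_contra hcon
    apply hq
    rw [expand (e := e) x, map_sum, AddMonoidHom.finsetSum_apply]
    apply Finset.sum_eq_zero
    intro p hp
    rw [map_zsmul, AddMonoidHom.coe_smul, Pi.smul_apply]
    have h2 : B (e.symm (Finsupp.single p 1)) (e.symm (Finsupp.single q 1)) = 0 := by
      by_contra h3
      exact hcon (Set.mem_biUnion hp h3)
    rw [h2, smul_zero]
  refine Set.Finite.subset ?_ h1
  exact Set.Finite.biUnion (Finset.finite_toSet _) (fun p _ => h.lf p)

lemma eq_zero_of_off {x z : L} (h : ∀ q ∈ nb e B x, e z q = 0) : B x z = 0 := by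
  rw [expand (e := e) z, map_sum]
  apply Finset.sum_eq_zero
  intro q _
  rw [map_zsmul]
  by_cases hq : q ∈ nb e B x
  · rw [h q hq, zero_smul]
  · have : B x (e.symm (Finsupp.single q 1)) = 0 := by
      by_contra h2
      exact hq h2
    rw [this, smul_zero]

/-- Local finiteness of the indecomposable vectors of bounded norm. -/
theorem finite_nbrs (h : Dat e B) (N : ℤ) (x : L) :
    {y | Ind B y ∧ B y y ≤ N ∧ B x y ≠ 0}.Finite := by
  by_contra hinf
  set Y := {y | Ind B y ∧ B y y ≤ N ∧ B x y ≠ 0} with hY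
  have hinf' : Infinite Y := Set.infinite_coe_iff.2 hinf
  let U : Ultrafilter Y := Filter.hyperfilter Y
  obtain ⟨C, hC⟩ := h.bd
  set M : ℤ := C * N with hM
  have hb : ∀ (y : Y) (T : Finset V), ∑ p ∈ T, (e y.1 p) ^ 2 ≤ M := by
    intro y T
    refine (sum_sq_le hC y.1 T).trans ?_
    exact mul_le_mul_of_nonneg_left y.2.2.1 (by positivity)
  have hb1 : ∀ (y : Y) (p : V), e y.1 p ∈ Set.Icc (-M) M := by
    intro y p
    have h1 := hb y {p}
    rw [Finset.sum_singleton] at h1
    have h2 : |e y.1 p| ≤ (e y.1 p) ^ 2 := by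
      rw [← sq_abs]
      rcases (abs_nonneg (e y.1 p)).eq_or_lt with h3 | h3
      · rw [← h3]; norm_num
      · nlinarith [Int.add_one_le_of_lt h3]
    exact abs_le.1 (h2.trans h1)
  have hl : ∀ p : V, ∃ v : ℤ, ∀ᶠ y : Y in (U : Filter Y), e y.1 p = v := by
    intro p
    have h1 : (⋃ v ∈ Set.Icc (-M) M, {y : Y | e y.1 p = v}) ∈ U := by
      refine Filter.mem_of_superset Filter.univ_mem ?_
      intro y _
      exact Set.mem_biUnion (hb1 y p) rfl
    obtain ⟨v, _, hv⟩ := (Ultrafilter.finite_biUnion_mem_iff (Set.finite_Icc _ _)).1 h1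
    exact ⟨v, hv⟩
  choose ℓ hℓ using hl
  have hfin : {p | ℓ p ≠ 0}.Finite := by
    by_contra hi
    obtain ⟨T, hT, hT'⟩ := Set.Infinite.exists_subset_card_eq hi (M.toNat + 1)
    have h1 : ∀ᶠ y : Y in (U : Filter Y), ∀ p ∈ T, e y.1 p = ℓ p :=
      (Filter.eventually_all_finset T).2 (fun p _ => hℓ p)
    obtain ⟨y, hy⟩ := h1.exists
    have h2 := hb y T
    have h3 : (T.card : ℤ) ≤ ∑ p ∈ T, (e y.1 p) ^ 2 := by
      rw [Finset.card_eq_sum_ones]
      push_cast
      apply Finset.sum_le_sum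
      intro p hp
      rw [hy p hp]
      have h4 : ℓ p ≠ 0 := hT hp
      have : 0 < (ℓ p) ^ 2 := by positivity
      omega
    rw [hT'] at h3
    push_cast at h3
    have h5 := Int.self_le_toNat M
    omega
  let l : L := e.symm (Finsupp.ofSupportFinite ℓ hfin)
  have hel : ∀ p, e l p = ℓ p := by
    intro p
    change e (e.symm _) p = _
    rw [AddEquiv.apply_symm_apply]
    rfl
  have ev : ∀ w : L, ∀ᶠ y : Y in (U : Filter Y), ∀ q ∈ nb e B w, e (y.1 - l) q = 0 := by
    intro w
    refine (Filter.eventually_all_finite (nb_finite h w)).2 (fun q _ => ?_)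
    filter_upwards [hℓ q] with y hy
    rw [map_sub, Finsupp.sub_apply, hel, hy, sub_self]
  have e1 : ∀ᶠ y : Y in (U : Filter Y), y.1 = l := by
    filter_upwards [ev l, ev x] with y h1 h2
    have h3 := eq_zero_of_off h1
    have h4 := eq_zero_of_off h2
    have h5 : l ≠ 0 := by
      intro h6
      rw [h6, sub_zero] at h4
      exact y.2.2.2 h4
    rcases y.2.1.2 l (y.1 - l) (by abel) h3 with h6 | h6
    · exact absurd h6 h5
    · exact sub_eq_zero.1 h6
  have e2 : ({y : Y | y.1 = l} : Set Y).Finite := by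
    apply Set.Subsingleton.finite
    intro a ha b hb
    exact Subtype.ext (ha.trans hb.symm)
  have e3 : ({y : Y | y.1 = l} : Set Y)ᶜ ∈ U := e2.compl_mem_hyperfilter
  exact (Ultrafilter.compl_mem_iff_notMem.1 e3) e1

/-! ### Short indecomposable vectors -/

/-- the indecomposable vectors of norm at most two -/
def S (B : L →+ L →+ ℤ) : Set L := {y | Ind B y ∧ B y y ≤ 2}

lemma ind_neg {y : L} (hy : Ind B y) : Ind B (-y) := by
  refine ⟨neg_ne_zero.2 hy.1, fun u v huv h0 => ?_⟩
  have h1 := hy.2 (-u) (-v) (by rw [← neg_add, huv, neg_neg]) (by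
    rw [map_neg, map_neg, AddMonoidHom.neg_apply, h0]; simp)
  simpa using h1

lemma nsub (h : Dat e B) (x y : L) : B (x - y) (x - y) = B x x - 2 * B x y + B y y := by
  rw [map_sub, map_sub, AddMonoidHom.sub_apply, AddMonoidHom.sub_apply, h.symm y x]
  ring

lemma nbr_pos (h : Dat e B) {x y : L} (hx : x ∈ S B) (hy : y ∈ S B) (h0 : 0 < B x y) :
    y = x ∨ (B x x = 2 ∧ B y y = 2 ∧ B x y = 1) := by
  have hx0 := h.pos x hx.1.1
  have hy0 := h.pos y hy.1.1
  have hx2 := hx.2
  have hy2 := hy.2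
  by_cases hxy : y = x
  · exact Or.inl hxy
  right
  have h1 := h.pos (x - y) (sub_ne_zero.2 (Ne.symm hxy))
  rw [nsub h] at h1
  have h2 : B x x = 1 ∨ B x x = 2 := by omega
  have h3 : B y y = 1 ∨ B y y = 2 := by omega
  rcases h2 with h2 | h2 <;> rcases h3 with h3 | h3
  · omega
  · exfalso
    have h4 : B x y = 1 := by omega
    rcases hy.1.2 x (y - x) (by abel) (by rw [map_sub, h4, h2]; ring) with h5 | h5
    · exact hx.1.1 h5
    · exact hxy (sub_eq_zero.1 h5)
  · exfalso
    have h4 : B x y = 1 := by omega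
    rcases hx.1.2 y (x - y) (by abel) (by rw [map_sub, h.symm y x, h4, h3]; ring) with h5 | h5
    · exact hy.1.1 h5
    · exact hxy (sub_eq_zero.1 h5).symm
  · refine ⟨h2, h3, ?_⟩
    omega

lemma S_neg {y : L} (hy : y ∈ S B) : -y ∈ S B := by
  refine ⟨ind_neg hy.1, ?_⟩
  have := hy.2
  simpa using this

lemma nbr (h : Dat e B) {x y : L} (hx : x ∈ S B) (hy : y ∈ S B) (h0 : B x y ≠ 0) :
    y = x ∨ y = -x ∨ (B x x = 2 ∧ B y y = 2 ∧ (B x y = 1 ∨ B x y = -1)) := by
  rcases lt_or_gt_of_ne h0 with h1 | h1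
  · rcases nbr_pos h hx (S_neg hy) (by rw [map_neg]; omega) with h2 | ⟨h2, h3, h4⟩
    · right; left
      rw [← h2, neg_neg]
    · right; right
      refine ⟨h2, by simpa using h3, Or.inr ?_⟩
      rw [map_neg] at h4
      omega
  · rcases nbr_pos h hx hy h1 with h2 | ⟨h2, h3, h4⟩
    · exact Or.inl h2
    · exact Or.inr (Or.inr ⟨h2, h3, Or.inl h4⟩)

lemma ind_of_one (h : Dat e B) {u : L} (hu : B u u = 1) : Ind B u := by
  refine ⟨?_, ?_⟩
  · rintro rfl
    simp at hu
  · intro a c hac h0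
    by_contra hcon
    push Not at hcon
    have h1 := h.pos a hcon.1
    have h2 := h.pos c hcon.2
    have h3 : B u u = B a a + B c c := by
      rw [← hac, map_add, map_add, AddMonoidHom.add_apply, AddMonoidHom.add_apply, h.symm c a, h0]
      ring
    omega

/-- chains of length three can be shortened -/
lemma three_two (h : Dat e B) {x0 x1 x2 x3 : L} (h0 : x0 ∈ S B) (h1 : x1 ∈ S B) (h2 : x2 ∈ S B)
    (h3 : x3 ∈ S B) (h01 : B x0 x1 ≠ 0) (h12 : B x1 x2 ≠ 0) (h23 : B x2 x3 ≠ 0) :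
    ∃ z ∈ S B, B x0 z ≠ 0 ∧ B z x3 ≠ 0 := by
  by_cases h02 : B x0 x2 = 0
  swap
  · exact ⟨x2, h2, h02, h23⟩
  by_cases h13 : B x1 x3 = 0
  swap
  · exact ⟨x1, h1, h01, h13⟩
  rcases nbr h h1 h2 h12 with h4 | h4 | ⟨h4, h5, h6⟩
  · exact absurd (by rw [h4] at h02; exact h02) h01
  · exact absurd (by rw [h4, map_neg, neg_eq_zero] at h02; exact h02) h01
  · obtain ⟨ε, hε, hε2⟩ : ∃ ε : ℤ, B x1 x2 = ε ∧ ε * ε = 1 := by
      rcases h6 with h6 | h6
      · exact ⟨1, h6, by norm_num⟩
      · exact ⟨-1, h6, by norm_num⟩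
    have hε0 : ε ≠ 0 := by
      rintro rfl
      norm_num at hε2
    set z := x1 - ε • x2 with hz
    have hzz : B z z = 2 := by
      rw [hz, nsub h, map_zsmul, map_zsmul, map_zsmul, AddMonoidHom.coe_smul, Pi.smul_apply, hε, h4,
        h5]
      simp only [smul_eq_mul]
      linear_combination (-2 + 2) * hε2
    have hx0z : B x0 z ≠ 0 := by
      rw [hz, map_sub, map_zsmul, h02, smul_zero, sub_zero]
      exact h01
    have hzx3 : B z x3 ≠ 0 := by
      rw [hz, map_sub, AddMonoidHom.sub_apply, map_zsmul, AddMonoidHom.coe_smul, Pi.smul_apply, h13,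
        zero_sub, smul_eq_mul]
      exact neg_ne_zero.2 (mul_ne_zero hε0 h23)
    refine ⟨z, ⟨⟨?_, ?_⟩, hzz.le⟩, hx0z, hzx3⟩
    · intro h7
      rw [h7] at hzz
      simp at hzz
    · intro u v huv h7
      by_contra hcon
      push Not at hcon
      have hu := h.pos u hcon.1
      have hv := h.pos v hcon.2
      have h8 : B z z = B u u + B v v := by
        rw [← huv, map_add, map_add, AddMonoidHom.add_apply, AddMonoidHom.add_apply, h.symm v u, h7]
        ring
      have hu1 : B u u = 1 := by omega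
      have huS : u ∈ S B := ⟨ind_of_one h hu1, by omega⟩
      have key : ∀ w ∈ S B, B w w = 2 → B u w = 0 := by
        intro w hw hw2
        by_contra h9
        rcases nbr h huS hw h9 with h10 | h10 | h10
        · rw [h10] at hw2; omega
        · rw [h10] at hw2
          simp at hw2
          omega
        · omega
      have h9 : B u z = 0 := by
        rw [hz, map_sub, map_zsmul, key x1 h1 h4, key x2 h2 h5]
        simp
      have h10 : B u z = 1 := by
        rw [← huv, map_add, h7, hu1]; norm_num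
      omega

/-- the relation between short indecomposable vectors: there is a common neighbour -/
def Rel (B : L →+ L →+ ℤ) (x y : L) : Prop := ∃ z ∈ S B, B x z ≠ 0 ∧ B z y ≠ 0

lemma self_ne (h : Dat e B) {x : L} (hx : x ∈ S B) : B x x ≠ 0 := (h.pos x hx.1.1).ne'

lemma rel_of_ne (h : Dat e B) {x y : L} (hx : x ∈ S B) (hxy : B x y ≠ 0) : Rel B x y :=
  ⟨x, hx, self_ne h hx, hxy⟩

lemma rel_refl (h : Dat e B) {x : L} (hx : x ∈ S B) : Rel B x x := rel_of_ne h hx (self_ne h hx)

lemma rel_symm (h : Dat e B) {x y : L} (hxy : Rel B x y) : Rel B y x := by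
  obtain ⟨z, hz, h1, h2⟩ := hxy
  exact ⟨z, hz, by rwa [h.symm], by rwa [h.symm]⟩

lemma rel_step (h : Dat e B) {x y w : L} (hx : x ∈ S B) (hy : y ∈ S B) (hw : w ∈ S B)
    (hxy : Rel B x y) (hyw : B y w ≠ 0) : Rel B x w := by
  obtain ⟨z, hz, h1, h2⟩ := hxy
  exact three_two h hx hz hy hw h1 h2 hyw

lemma rel_trans (h : Dat e B) {x y w : L} (hx : x ∈ S B) (hy : y ∈ S B) (hw : w ∈ S B)
    (hxy : Rel B x y) (hyw : Rel B y w) : Rel B x w := by
  obtain ⟨z, hz, h1, h2⟩ := hyw
  exact rel_step h hx hz hw (rel_step h hx hy hz hxy h1) h2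

/-- the classes are finite -/
lemma class_finite (h : Dat e B) (x : L) : {y | y ∈ S B ∧ Rel B x y}.Finite := by
  have h1 := finite_nbrs h 2 x
  have h2 : {y | y ∈ S B ∧ Rel B x y} ⊆
      ⋃ z ∈ {z | Ind B z ∧ B z z ≤ 2 ∧ B x z ≠ 0}, {y | Ind B y ∧ B y y ≤ 2 ∧ B z y ≠ 0} := by
    rintro y ⟨hy, z, hz, h3, h4⟩
    exact Set.mem_biUnion (show z ∈ {z | Ind B z ∧ B z z ≤ 2 ∧ B x z ≠ 0} from
      ⟨hz.1, hz.2, h3⟩) ⟨hy.1, hy.2, h4⟩
  exact (h1.biUnion (fun z _ => finite_nbrs h 2 z)).subset h2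

/-- vectors of norm at most two are sums of short indecomposable vectors -/
lemma short_mem (h : Dat e B) {x : L} (hx : B x x ≤ 2) : x ∈ AddSubgroup.closure (S B) := by
  by_cases hi : Ind B x
  · exact AddSubgroup.subset_closure ⟨hi, hx⟩
  · by_cases hx0 : x = 0
    · rw [hx0]; exact zero_mem _
    unfold Ind at hi
    push Not at hi
    obtain ⟨u, v, huv, h0, hu, hv⟩ := hi hx0
    have hu' := h.pos u hu
    have hv' := h.pos v hv
    have h8 : B x x = B u u + B v v := by
      rw [← huv, map_add, map_add, AddMonoidHom.add_apply, AddMonoidHom.add_apply, h.symm v u, h0]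
      ring
    have hu1 : B u u = 1 := by omega
    have hv1 : B v v = 1 := by omega
    rw [← huv]
    exact add_mem (AddSubgroup.subset_closure ⟨ind_of_one h hu1, by omega⟩)
      (AddSubgroup.subset_closure ⟨ind_of_one h hv1, by omega⟩)

end Pool.Agent.Q184.DF
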