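import Pool.Agent.Q184.DF.Unit

/-!
A positive definite unimodular form of rank two over `ℤ[t, t⁻¹]` with diagonal coefficients `3`
which is not extended from the integers.
-/

set_option autoImplicit false

namespace Pool.Agent.Q184.DF.Ex

open Finset Matrix Pool.Agent.Q184.DF

/-- the ring of integral Laurent polynomials -/
abbrev Lr : Type := MonoidAlgebra ℤ (Multiplicative ℤ)

/-- `t ^ k` -/
noncomputable def T (k : ℤ) : Lr := MonoidAlgebra.single (Multiplicative.ofAdd k) 1

lemma T_mul (j k : ℤ) : T j * T k = T (j + k) := by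
  unfold T
  rw [MonoidAlgebra.single_mul_single, one_mul, ← ofAdd_add]

lemma T_zero : T 0 = 1 := by
  unfold T
  rw [ofAdd_zero, ← MonoidAlgebra.one_def]

lemma bar_T (k : ℤ) : bar (T k) = T (-k) := by
  unfold T
  rw [bar_single, ← ofAdd_neg]

lemma bar_sub (x y : Lr) : bar (x - y) = bar x - bar y := by
  rw [sub_eq_add_neg, bar_add, bar_neg, ← sub_eq_add_neg]

/-- first vector -/
noncomputable def X1 : Lr := T 0 + T 1 + T 3
noncomputable def Y1 : Lr := T 0 - T (-1) + T (-3)
/-- second vector -/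
noncomputable def X2 : Lr := T 1 + T 2 - T (-3)
noncomputable def Y2 : Lr := T (-5) + T (-1) - T (-6)

noncomputable def pp : Lr := T 0 + T 0 + T 0 + T 3 + T (-3)
noncomputable def rr : Lr := T 0 + T 0 + T 0 - T 5 - T (-5)
noncomputable def qq : Lr := T (-2) + T (-1) + T 1 + T 2 + T 5 - T 3 - T 4 - T 6
noncomputable def qb : Lr := T 2 + T 1 + T (-1) + T (-2) + T (-5) - T (-3) - T (-4) - T (-6)

lemma i11 : pp + pp = X1 * bar X1 + Y1 * bar Y1 := by
  unfold pp X1 Y1
  simp only [bar_add, bar_sub, bar_T, mul_add, add_mul, mul_sub, sub_mul, T_mul]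
  norm_num
  abel

lemma i12 : qq + qq = X1 * bar X2 + Y1 * bar Y2 := by
  unfold qq X1 Y1 X2 Y2
  simp only [bar_add, bar_sub, bar_T, mul_add, add_mul, mul_sub, sub_mul, T_mul]
  norm_num
  abel

lemma i21 : qb + qb = X2 * bar X1 + Y2 * bar Y1 := by
  unfold qb X1 Y1 X2 Y2
  simp only [bar_add, bar_sub, bar_T, mul_add, add_mul, mul_sub, sub_mul, T_mul]
  norm_num
  abel

lemma i22 : rr + rr = X2 * bar X2 + Y2 * bar Y2 := by
  unfold rr X2 Y2
  simp only [bar_add, bar_sub, bar_T, mul_add, add_mul, mul_sub, sub_mul, T_mul]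
  norm_num
  abel

lemma detW : X1 * Y2 - Y1 * X2 = T 0 + T 0 := by
  unfold X1 Y1 X2 Y2
  simp only [mul_add, add_mul, mul_sub, sub_mul, T_mul]
  norm_num
  abel

lemma detA : pp * rr - qq * qb = 1 := by
  unfold pp qq qb rr
  simp only [mul_add, add_mul, mul_sub, sub_mul, T_mul]
  norm_num
  rw [← T_zero]
  abel

/-- The example. -/
noncomputable def A : Matrix (Fin 2) (Fin 2) Lr := !![pp, qq; qb, rr]

lemma adjA : adj A = A := by
  ext1 i j
  rw [adj_apply]
  fin_cases i <;> fin_cases j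
  · change bar pp = pp
    unfold pp
    simp only [bar_add, bar_T]
    norm_num
    abel
  · change bar qb = qq
    unfold qb qq
    simp only [bar_add, bar_sub, bar_T]
    norm_num
  · change bar qq = qb
    unfold qb qq
    simp only [bar_add, bar_sub, bar_T]
    norm_num
  · change bar rr = rr
    unfold rr
    simp only [bar_add, bar_sub, bar_T]
    norm_num
    abel

lemma unitA : IsUnit A := by
  rw [Matrix.isUnit_iff_isUnit_det]
  unfold A
  rw [Matrix.det_fin_two_of, detA]
  exact isUnit_one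

/-- the two coordinates -/
noncomputable def cX (x : Fin 2 → Lr) : Lr := x 0 * X1 + x 1 * X2
noncomputable def cY (x : Fin 2 → Lr) : Lr := x 0 * Y1 + x 1 * Y2

lemma herm_two (x : Fin 2 → Lr) :
    herm A x x + herm A x x = cX x * bar (cX x) + cY x * bar (cY x) := by
  have h : herm A x x = x 0 * pp * bar (x 0) + x 0 * qq * bar (x 1) +
      (x 1 * qb * bar (x 0) + x 1 * rr * bar (x 1)) := by
    unfold herm
    rw [Fin.sum_univ_two, Fin.sum_univ_two, Fin.sum_univ_two]
    rfl
  rw [h]
  unfold cX cY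
  rw [bar_add, bar_add, bar_mul, bar_mul, bar_mul, bar_mul]
  linear_combination (x 0 * bar (x 0)) * i11 + (x 0 * bar (x 1)) * i12 +
    (x 1 * bar (x 0)) * i21 + (x 1 * bar (x 1)) * i22

lemma two_norm (x : Fin 2 → Lr) :
    2 * (herm A x x).coeff 1 = nrm (cX x) + nrm (cY x) := by
  have h := congrArg (fun z : Lr => z.coeff 1) (herm_two x)
  simp only [MonoidAlgebra.coeff_add, Finsupp.add_apply, coeff_mul_bar] at h
  linarith

lemma nrm_eq_zero {a : Lr} (h : nrm a = 0) : a = 0 := by
  by_contra hne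
  have h1 : a.coeff ≠ 0 := fun h2 => hne (MonoidAlgebra.coeff_eq_zero.1 h2)
  obtain ⟨g, hg⟩ := Finsupp.support_nonempty_iff.2 h1
  have h2 : 0 < nrm a := by
    unfold nrm
    refine Finset.sum_pos' (fun _ _ => sq_nonneg _) ⟨g, hg, ?_⟩
    have := Finsupp.mem_support_iff.1 hg
    positivity
  omega

lemma rel1 (x : Fin 2 → Lr) : X1 * cY x - Y1 * cX x = x 1 * (T 0 + T 0) := by
  unfold cX cY
  linear_combination (x 1) * detW

lemma rel0 (x : Fin 2 → Lr) : Y2 * cX x - X2 * cY x = x 0 * (T 0 + T 0) := by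
  unfold cX cY
  linear_combination (x 0) * detW

lemma eq_zero_of_two {a : Lr} (h : a * (T 0 + T 0) = 0) : a = 0 := by
  rw [T_zero, mul_add, mul_one] at h
  ext g
  have h1 := congrArg (fun z : Lr => z.coeff g) h
  simp only [MonoidAlgebra.coeff_add, Finsupp.add_apply, MonoidAlgebra.coeff_zero,
    Finsupp.coe_zero, Pi.zero_apply] at h1 ⊢
  omega

lemma posA (x : Fin 2 → Lr) (hx : x ≠ 0) : 0 < (herm A x x).coeff 1 := by
  by_contra hcon
  push Not at hcon
  have h := two_norm x
  have h1 := nrm_nonneg (cX x)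
  have h2 := nrm_nonneg (cY x)
  have h3 := nrm_eq_zero (show nrm (cX x) = 0 by omega)
  have h4 := nrm_eq_zero (show nrm (cY x) = 0 by omega)
  apply hx
  funext i
  fin_cases i
  · have h5 := rel0 x
    rw [h3, h4, mul_zero, mul_zero, sub_zero] at h5
    exact eq_zero_of_two h5.symm
  · have h5 := rel1 x
    rw [h3, h4, mul_zero, mul_zero, sub_zero] at h5
    exact eq_zero_of_two h5.symm

/-! ### Reduction modulo two -/

/-- reduction modulo two -/
noncomputable def red : Lr →+* MonoidAlgebra (ZMod 2) (Multiplicative ℤ) :=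
  MonoidAlgebra.mapRingHom _ (Int.castRingHom (ZMod 2))

lemma red_coeff (z : Lr) (g : Multiplicative ℤ) : (red z).coeff g = ((z.coeff g : ℤ) : ZMod 2) := by
  unfold red
  rw [MonoidAlgebra.coeff_mapRingHom]
  rfl

lemma nrm_ne_two {a : Lr} (h : red a = 0) : nrm a ≠ 2 := by
  intro h2
  have h3 : (4 : ℤ) ∣ nrm a := by
    unfold nrm
    refine Finset.dvd_sum fun g _ => ?_
    have h4 : ((a.coeff g : ℤ) : ZMod 2) = 0 := by
      rw [← red_coeff, h]; rfl
    obtain ⟨k, hk⟩ := (ZMod.intCast_zmod_eq_zero_iff_dvd (a.coeff g) 2).1 h4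
    rw [hk]
    exact ⟨k ^ 2, by push_cast; ring⟩
  omega

lemma red_ne {a : Lr} {g : Multiplicative ℤ} (h : a.coeff g = 1) : red a ≠ 0 := by
  intro h1
  have h2 := red_coeff a g
  rw [h1, h] at h2
  simp at h2

lemma X1_coeff : X1.coeff (Multiplicative.ofAdd 0) = 1 := by
  unfold X1 T
  simp only [MonoidAlgebra.coeff_add, Finsupp.add_apply, MonoidAlgebra.coeff_single,
    Finsupp.single_apply, EmbeddingLike.apply_eq_iff_eq]
  norm_num

lemma Y1_coeff : Y1.coeff (Multiplicative.ofAdd 0) = 1 := by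
  unfold Y1 T
  simp only [MonoidAlgebra.coeff_add, MonoidAlgebra.coeff_sub, Finsupp.add_apply,
    Finsupp.sub_apply, MonoidAlgebra.coeff_single,
    Finsupp.single_apply, EmbeddingLike.apply_eq_iff_eq]
  norm_num

lemma red_two (a : Lr) : red (a * (T 0 + T 0)) = 0 := by
  rw [T_zero, map_mul, map_add, map_one]
  have : (1 : MonoidAlgebra (ZMod 2) (Multiplicative ℤ)) + 1 = 0 := by
    ext g
    rw [MonoidAlgebra.coeff_add, Finsupp.add_apply]
    exact CharTwo.add_self_eq_zero _
  rw [this, mul_zero]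

/-- the companion matrix of `t³ + t + 1` -/
def Mc : Matrix (Fin 3) (Fin 3) (ZMod 2) := !![0, 1, 0; 0, 0, 1; 1, 1, 0]
def Mi : Matrix (Fin 3) (Fin 3) (ZMod 2) := Mc * Mc + 1

def Mu : (Matrix (Fin 3) (Fin 3) (ZMod 2))ˣ := ⟨Mc, Mi, by decide, by decide⟩

/-- the representation -/
noncomputable def phi : Lr →+* Matrix (Fin 3) (Fin 3) (ZMod 2) :=
  (MonoidAlgebra.lift ℤ (Matrix (Fin 3) (Fin 3) (ZMod 2)) (Multiplicative ℤ)
    ((Units.coeHom _).comp (zpowersHom _ Mu))).toRingHom

lemma phi_T (k : ℤ) : phi (T k) = ((Mu ^ k : (Matrix (Fin 3) (Fin 3) (ZMod 2))ˣ) :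
    Matrix (Fin 3) (Fin 3) (ZMod 2)) := by
  unfold phi T
  simp

lemma phi_T1 : phi (T 1) = Mc := by
  rw [phi_T, zpow_one]; rfl

lemma phi_Tm1 : phi (T (-1)) = Mi := by
  rw [phi_T, _root_.zpow_neg, zpow_one]; rfl

lemma phi_X1 : phi X1 = 0 := by
  have h : X1 = 1 + T 1 + T 1 * T 1 * T 1 := by
    unfold X1
    simp only [T_mul, T_zero]
    norm_num
  rw [h, map_add, map_add, map_one, map_mul, map_mul, phi_T1]
  decide

lemma phi_X2 : phi X2 = 0 := by
  have h : X2 = T 1 + T 1 * T 1 - T (-1) * T (-1) * T (-1) := by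
    unfold X2
    simp only [T_mul]
    norm_num
  rw [h, map_sub, map_add, map_mul, map_mul, map_mul, phi_T1, phi_Tm1]
  decide

lemma phi_cX (x : Fin 2 → Lr) : phi (cX x) = 0 := by
  unfold cX
  rw [map_add, map_mul, map_mul, phi_X1, phi_X2, mul_zero, mul_zero, add_zero]

lemma nrm_cX_ne_one (x : Fin 2 → Lr) : nrm (cX x) ≠ 1 := by
  intro h
  set a := cX x with ha
  have h0 : a.coeff ≠ 0 := by
    intro h1
    have : a = 0 := MonoidAlgebra.coeff_eq_zero.1 h1
    rw [this] at h
    simp [nrm] at h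
  obtain ⟨g, hg⟩ := Finsupp.support_nonempty_iff.2 h0
  have h2 : ∀ k ∈ a.coeff.support, 1 ≤ (a.coeff k) ^ 2 := by
    intro k hk
    have := Finsupp.mem_support_iff.1 hk
    have : 0 < (a.coeff k) ^ 2 := by positivity
    omega
  have h3 : a.coeff.support = {g} := by
    refine Finset.eq_singleton_iff_unique_mem.2 ⟨hg, fun k hk => ?_⟩
    by_contra hkg
    have h4 : ∑ m ∈ ({k, g} : Finset (Multiplicative ℤ)), (a.coeff m) ^ 2 ≤ nrm a := by
      unfold nrm
      refine Finset.sum_le_sum_of_subset_of_nonneg ?_ (fun _ _ _ => sq_nonneg _)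
      intro m hm
      rcases Finset.mem_insert.1 hm with h5 | h5
      · rw [h5]; exact hk
      · rw [Finset.mem_singleton.1 h5]; exact hg
    rw [Finset.sum_pair hkg] at h4
    have h5 := h2 k hk
    have h6 := h2 g hg
    omega
  have h4 : (a.coeff g) ^ 2 = 1 := by
    unfold nrm at h
    rwa [h3, Finset.sum_singleton] at h
  have h5 : a = MonoidAlgebra.single g (a.coeff g) := by
    ext m
    rw [MonoidAlgebra.coeff_single, Finsupp.single_apply]
    by_cases hm : g = m
    · rw [if_pos hm, hm]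
    · rw [if_neg hm]
      apply Finsupp.notMem_support_iff.1
      rw [h3, Finset.mem_singleton]
      exact fun h6 => hm h6.symm
  have h6 : a * MonoidAlgebra.single g⁻¹ (a.coeff g) = 1 := by
    conv_lhs => rw [h5]
    rw [MonoidAlgebra.single_mul_single, MonoidAlgebra.coeff_single, Finsupp.single_eq_same,
      mul_inv_cancel, ← sq, h4, ← MonoidAlgebra.one_def]
  have h7 := congrArg phi h6
  rw [map_mul, ha, phi_cX, zero_mul, map_one] at h7
  exact zero_ne_one h7

/-- there is no vector of norm one -/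
lemma norm_ne_one (x : Fin 2 → Lr) : (herm A x x).coeff 1 ≠ 1 := by
  intro h
  have h0 := two_norm x
  rw [h] at h0
  have h1 := nrm_nonneg (cX x)
  have h2 := nrm_nonneg (cY x)
  have h3 := nrm_cX_ne_one x
  have h4 := congrArg red (rel1 x)
  rw [red_two, map_sub, map_mul, map_mul] at h4
  rcases (show (nrm (cX x) = 0 ∧ nrm (cY x) = 2) ∨ (nrm (cX x) = 2 ∧ nrm (cY x) = 0) by omega)
    with ⟨h5, h6⟩ | ⟨h5, h6⟩
  · have h7 := nrm_eq_zero h5
    rw [h7, map_zero, mul_zero, sub_zero] at h4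
    rcases mul_eq_zero.1 h4 with h8 | h8
    · exact red_ne X1_coeff h8
    · exact nrm_ne_two h8 h6
  · have h7 := nrm_eq_zero h6
    rw [h7, map_zero, mul_zero, zero_sub, neg_eq_zero] at h4
    rcases mul_eq_zero.1 h4 with h8 | h8
    · exact red_ne Y1_coeff h8
    · exact nrm_ne_two h8 h5

/-! ### The form is not extended -/

lemma aug_single (g : Multiplicative ℤ) (r : ℤ) :
    aug (MonoidAlgebra.single g r : Lr) = r := by
  unfold aug
  simp

lemma aug_T (k : ℤ) : aug (T k) = 1 := aug_single _ _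

lemma aug_rr : aug rr = 1 := by
  unfold rr
  simp only [map_add, map_sub, aug_T]
  norm_num

/-- the integers in the group ring -/
noncomputable def io : ℤ →+* Lr := MonoidAlgebra.singleOneRingHom

lemma io_apply (z : ℤ) : io z = MonoidAlgebra.single 1 z := rfl

lemma adj_io (C : Matrix (Fin 2) (Fin 2) ℤ) : adj (C.map io) = Cᵀ.map io := by
  ext1 i j
  rw [adj_apply, Matrix.map_apply, Matrix.map_apply, Matrix.transpose_apply, io_apply, bar_single,
    inv_one]

lemma herm_row (V : Matrix (Fin 2) (Fin 2) Lr) (i : Fin 2) :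
    (V * A * adj V) i i = herm A (V i) (V i) := by
  rw [Matrix.mul_apply]
  unfold herm
  rw [Finset.sum_comm]
  refine Finset.sum_congr rfl fun l _ => ?_
  rw [Matrix.mul_apply, Finset.sum_mul]
  rfl

lemma aug_bar (a : Lr) : aug (bar a) = aug a := by
  induction a using MonoidAlgebra.induction_linear with
  | zero => rw [bar_zero]
  | add x y hx hy => rw [bar_add, map_add, map_add, hx, hy]
  | single g r => rw [bar_single, aug_single, aug_single]

theorem not_extended : ¬ ∃ (U : (Matrix (Fin 2) (Fin 2) Lr)ˣ) (B : Matrix (Fin 2) (Fin 2) ℤ),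
    U.val * A * adj U.val = B.map (MonoidAlgebra.single 1) := by
  rintro ⟨U, B, hB⟩
  have hB' : U.val * A * adj U.val = B.map io := hB
  set C : Matrix (Fin 2) (Fin 2) ℤ := U.inv.map aug with hC
  set V : Matrix (Fin 2) (Fin 2) Lr := C.map io * U.val with hV
  have h1 : V * A * adj V = (C * B * Cᵀ).map io := by
    rw [hV, adj_mul, adj_io]
    calc C.map io * U.val * A * (adj U.val * Cᵀ.map io)
        = C.map io * (U.val * A * adj U.val) * Cᵀ.map io := by
          simp only [Matrix.mul_assoc]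
      _ = (C * B * Cᵀ).map io := by
          rw [hB', ← Matrix.map_mul, ← Matrix.map_mul]
  have h2 : V.map aug = 1 := by
    rw [hV, Matrix.map_mul, Matrix.map_map]
    have h3 : C.map (aug ∘ io) = C := by
      ext1 i j
      rw [Matrix.map_apply, Function.comp_apply, io_apply, aug_single]
    rw [h3, hC, ← Matrix.map_mul]
    have h4 : U.inv * U.val = 1 := U.inv_val
    rw [h4]
    exact Matrix.map_one _ (map_zero _) (map_one _)
  have h3 : herm A (V 1) (V 1) = MonoidAlgebra.single 1 ((C * B * Cᵀ) 1 1) := by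
    rw [← herm_row, h1, Matrix.map_apply, io_apply]
  have h4 : aug (herm A (V 1) (V 1)) = 1 := by
    have h5 : ∀ j, aug (V 1 j) = (1 : Matrix (Fin 2) (Fin 2) ℤ) 1 j := by
      intro j
      rw [← h2, Matrix.map_apply]
    unfold herm
    rw [Fin.sum_univ_two, Fin.sum_univ_two, Fin.sum_univ_two]
    simp only [map_add, map_mul, aug_bar, h5]
    have h6 : aug (A 1 1) = 1 := aug_rr
    rw [h6]
    simp [Matrix.one_apply]
  have h5 : (C * B * Cᵀ) 1 1 = 1 := by
    rw [h3, aug_single] at h4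
    exact h4
  apply norm_ne_one (V 1)
  rw [h3, h5]
  simp

lemma diagA (i : Fin 2) : (A i i).coeff 1 = 3 := by
  have h1 : (1 : Multiplicative ℤ) = Multiplicative.ofAdd 0 := rfl
  fin_cases i
  · change pp.coeff 1 = 3
    rw [h1]
    unfold pp T
    simp only [MonoidAlgebra.coeff_add, MonoidAlgebra.coeff_sub, Finsupp.add_apply,
      Finsupp.sub_apply, MonoidAlgebra.coeff_single,
      Finsupp.single_apply, EmbeddingLike.apply_eq_iff_eq]
    norm_num
  · change rr.coeff 1 = 3
    rw [h1]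
    unfold rr T
    simp only [MonoidAlgebra.coeff_add, MonoidAlgebra.coeff_sub, Finsupp.add_apply,
      Finsupp.sub_apply, MonoidAlgebra.coeff_single,
      Finsupp.single_apply, EmbeddingLike.apply_eq_iff_eq]
    norm_num

end Pool.Agent.Q184.DF.Ex
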