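import Pool.Agent.Q184.DF.Kne
import Pool.Agent.Q184.DF.Ex

/-!
Rigidity of constant positive definite forms over integral group rings of arbitrary groups.
-/

set_option autoImplicit false

namespace Pool.Agent.Q184.DF

open Finset Filter Matrix

variable {Γ : Type} [Group Γ] {n : ℕ}

lemma herm_vecMul_left (A M : Matrix (Fin n) (Fin n) (MonoidAlgebra ℤ Γ))
    (x y : Fin n → MonoidAlgebra ℤ Γ) : herm A (x ᵥ* M) y = herm (M * A) x y := by
  unfold herm
  have h1 : ∀ k l, (x ᵥ* M) k * A k l * bar (y l) = ∑ m, x m * (M m k * A k l) * bar (y l) := by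
    intro k l
    change (∑ m, x m * M m k) * A k l * bar (y l) = _
    rw [Finset.sum_mul, Finset.sum_mul]
    refine Finset.sum_congr rfl fun m _ => ?_
    noncomm_ring
  have h2 : ∀ m l, x m * (M * A) m l * bar (y l) = ∑ k, x m * (M m k * A k l) * bar (y l) := by
    intro m l
    rw [Matrix.mul_apply, Finset.mul_sum, Finset.sum_mul]
  simp only [h1, h2]
  rw [Finset.sum_comm]
  rw [Finset.sum_congr rfl fun l _ => Finset.sum_comm]
  rw [Finset.sum_comm]

lemma herm_vecMul_right (A M : Matrix (Fin n) (Fin n) (MonoidAlgebra ℤ Γ))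
    (x y : Fin n → MonoidAlgebra ℤ Γ) : herm A x (y ᵥ* M) = herm (A * adj M) x y := by
  unfold herm
  refine Finset.sum_congr rfl fun k _ => ?_
  have h1 : ∀ l, x k * A k l * bar ((y ᵥ* M) l) =
      ∑ m, x k * (A k l * adj M l m) * bar (y m) := by
    intro l
    change x k * A k l * bar (∑ m, y m * M m l) = _
    rw [bar_sum, Finset.mul_sum]
    refine Finset.sum_congr rfl fun m _ => ?_
    rw [bar_mul, adj_apply]
    noncomm_ring
  have h2 : ∀ m, x k * (A * adj M) k m * bar (y m) =
      ∑ l, x k * (A k l * adj M l m) * bar (y m) := by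
    intro m
    rw [Matrix.mul_apply, Finset.mul_sum, Finset.sum_mul]
  simp only [h1, h2]
  rw [Finset.sum_comm]

variable {C C' : Matrix (Fin n) (Fin n) ℤ}

/-- Self-adjoint idempotents are constant. -/
theorem idem_const (h : PD C) (E : Matrix (Fin n) (Fin n) (MonoidAlgebra ℤ Γ)) (hE : E * E = E)
    (hs : E * cst C = cst C * adj E) : ∃ E0 : Matrix (Fin n) (Fin n) ℤ, E = cst E0 := by
  have h0 : ∀ x, form (cst C) (x ᵥ* E) (x - x ᵥ* E) = 0 := by
    intro x
    rw [map_sub, form_apply, form_apply, herm_vecMul_left, herm_vecMul_right,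
      herm_vecMul_left]
    have h1 : E * (cst C * adj E) = E * cst C := by rw [← hs, ← mul_assoc, hE]
    rw [h1, sub_self]
  have h1 : ∀ w : Fin n → ℤ, ∃ v : Fin n → ℤ, (tr (1 : Γ) w) ᵥ* E = tr 1 v := by
    intro w
    have hw := const_generate (Γ := Γ) h w
    induction hw using AddSubgroup.closure_induction with
    | mem w hw =>
      rcases hw.2 _ _ (by abel) (h0 (tr 1 w)).ge with h2 | h2
      · exact ⟨0, by rw [h2, tr_zero]⟩
      · exact ⟨w, (sub_eq_zero.1 h2).symm⟩
    | zero => exact ⟨0, by rw [tr_zero, Matrix.zero_vecMul]⟩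
    | add a b _ _ ha hb =>
      obtain ⟨v, hv⟩ := ha
      obtain ⟨v', hv'⟩ := hb
      exact ⟨v + v', by rw [tr_add, Matrix.add_vecMul, hv, hv', tr_add]⟩
    | neg a _ ha =>
      obtain ⟨v, hv⟩ := ha
      refine ⟨-v, ?_⟩
      have h3 : ∀ u : Fin n → ℤ, tr (1 : Γ) (-u) = -tr (1 : Γ) u := by
        intro u
        rw [eq_neg_iff_add_eq_zero, ← tr_add, neg_add_cancel, tr_zero]
      rw [h3, Matrix.neg_vecMul, hv, h3]
  choose f hf using h1
  refine ⟨fun i => f (Pi.single i 1), ?_⟩
  ext1 i j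
  have h2 := congrFun (hf (Pi.single i 1)) j
  have h3 : tr (1 : Γ) (Pi.single i (1 : ℤ)) = Pi.single i (1 : MonoidAlgebra ℤ Γ) := by
    funext k
    unfold tr
    by_cases hk : k = i
    · subst hk
      rw [Pi.single_eq_same, Pi.single_eq_same, MonoidAlgebra.one_def]
    · rw [Pi.single_eq_of_ne hk, Pi.single_eq_of_ne hk, MonoidAlgebra.single_zero]
  rw [h3, Matrix.single_one_vecMul] at h2
  exact h2

lemma tr_neg (g : Γ) (u : Fin n → ℤ) : tr g (-u) = -tr g u := by
  rw [eq_neg_iff_add_eq_zero, ← tr_add, neg_add_cancel, tr_zero]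

lemma tr_zsmul (g : Γ) (z : ℤ) (u : Fin n → ℤ) : tr g (z • u) = z • tr g u := by
  funext i
  change MonoidAlgebra.single g (z * u i) = z • MonoidAlgebra.single g (u i)
  rw [MonoidAlgebra.smul_single, smul_eq_mul]

/-- the vectors which go to the translate by `g` of the constant vectors -/
noncomputable def Mg (U : Matrix (Fin n) (Fin n) (MonoidAlgebra ℤ Γ)) (g : Γ) :
    Submodule ℤ (Fin n → ℤ) where
  carrier := {w | ∃ v : Fin n → ℤ, tr (1 : Γ) w ᵥ* U = tr g v}
  add_mem' := by
    rintro a b ⟨v, hv⟩ ⟨v', hv'⟩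
    exact ⟨v + v', by rw [tr_add, Matrix.add_vecMul, hv, hv', tr_add]⟩
  zero_mem' := ⟨0, by rw [tr_zero, Matrix.zero_vecMul, tr_zero]⟩
  smul_mem' := by
    rintro z a ⟨v, hv⟩
    exact ⟨z • v, by rw [tr_zsmul, Matrix.smul_vecMul, hv, tr_zsmul]⟩

lemma single_cf (g : Γ) (w : Fin n → ℤ) : tr g w = fun i => MonoidAlgebra.single g (w i) := rfl

theorem isometry_const (h : PD C) (h' : PD C')
    (U : (Matrix (Fin n) (Fin n) (MonoidAlgebra ℤ Γ))ˣ)
    (hU : U.val * cst C * adj U.val = cst C') :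
    ∃ (V W : (Matrix (Fin n) (Fin n) ℤ)ˣ) (g : Fin n → Γ),
      U.val = cst V.val * Matrix.diagonal (fun k => MonoidAlgebra.single (g k) (1 : ℤ)) *
        cst W.val := by
  classical
  have hiso : ∀ x y, form (cst C) (x ᵥ* U.val) (y ᵥ* U.val) = form (cst C') x y := by
    intro x y
    rw [form_apply, form_apply, herm_vecMul_left, herm_vecMul_right, hU]
  have hiso' : ∀ x y, form (cst C') (x ᵥ* U.inv) (y ᵥ* U.inv) = form (cst C) x y := by
    intro x y
    rw [← hiso, Matrix.vecMul_vecMul, Matrix.vecMul_vecMul, U.inv_val, Matrix.vecMul_one,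
      Matrix.vecMul_one]
  have hkir : ∀ x, KIr (form (cst C')) x → KIr (form (cst C)) (x ᵥ* U.val) := by
    intro x hx
    refine ⟨?_, ?_⟩
    · intro h0
      apply hx.1
      have h1 : (x ᵥ* U.val) ᵥ* U.inv = x := by
        rw [Matrix.vecMul_vecMul, U.val_inv, Matrix.vecMul_one]
      rw [← h1, h0, Matrix.zero_vecMul]
    · intro u v huv h0
      have hb : ∀ z : Fin n → MonoidAlgebra ℤ Γ, z ᵥ* U.inv = 0 → z = 0 := by
        intro z hz
        have h1 : (z ᵥ* U.inv) ᵥ* U.val = z := by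
          rw [Matrix.vecMul_vecMul, U.inv_val, Matrix.vecMul_one]
        rw [← h1, hz, Matrix.zero_vecMul]
      rcases hx.2 (u ᵥ* U.inv) (v ᵥ* U.inv) (by
        rw [← Matrix.add_vecMul, huv, Matrix.vecMul_vecMul, U.val_inv, Matrix.vecMul_one])
        (by rw [hiso']; exact h0) with h1 | h1
      · exact Or.inl (hb u h1)
      · exact Or.inr (hb v h1)
  -- the sum is everything
  have hsup : iSup (Mg U.val) = ⊤ := by
    rw [eq_top_iff]
    intro w _
    have hw := const_generate (Γ := Γ) h' w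
    induction hw using AddSubgroup.closure_induction with
    | mem w hw =>
      obtain ⟨g, hg⟩ := kir_single _ (hkir _ hw)
      exact Submodule.mem_iSup_of_mem g ⟨_, hg⟩
    | zero => exact zero_mem _
    | add a b _ _ ha hb => exact add_mem (ha trivial) (hb trivial)
    | neg a _ ha => exact neg_mem (ha trivial)
  -- orthogonality
  have hqf : ∀ w w' : Fin n → ℤ, qf C' w w' = form (cst C') (tr (1 : Γ) w) (tr 1 w') := by
    intro w w'
    rw [form_tr, cf_tr_self]
  have horth : ∀ g k : Γ, g ≠ k → ∀ w ∈ Mg U.val g, ∀ w' ∈ Mg U.val k, qf C' w w' = 0 := by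
    rintro g k hgk w ⟨v, hv⟩ w' ⟨v', hv'⟩
    rw [hqf, ← hiso, hv, hv', form_tr, cf_tr_ne (Ne.symm hgk)]
    unfold qf
    simp
  have hind : iSupIndep (Mg U.val) := by
    rw [iSupIndep_def]
    intro g
    rw [Submodule.disjoint_def]
    intro x hx hx'
    by_contra hne
    have h1 : ∀ y ∈ (⨆ j, ⨆ (_ : j ≠ g), Mg U.val j), qf C' x y = 0 := by
      let K : Submodule ℤ (Fin n → ℤ) :=
        { carrier := {y | qf C' x y = 0}
          add_mem' := by
            intro a b ha hb
            change qf C' x (a + b) = 0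
            change qf C' x a = 0 at ha
            change qf C' x b = 0 at hb
            rw [hqf, tr_add, map_add, ← hqf, ← hqf, ha, hb, add_zero]
          zero_mem' := by
            change qf C' x 0 = 0
            rw [hqf, tr_zero, map_zero]
          smul_mem' := by
            intro z a ha
            change qf C' x (z • a) = 0
            change qf C' x a = 0 at ha
            rw [hqf, tr_zsmul, map_zsmul, ← hqf, ha, smul_zero] }
      have h2 : (⨆ j, ⨆ (_ : j ≠ g), Mg U.val j) ≤ K := by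
        refine iSup_le fun j => iSup_le fun hj => ?_
        intro y hy
        exact horth g j (Ne.symm hj) x hx y hy
      intro y hy
      exact h2 hy
    have h2 := h'.pos x hne
    have h3 := h1 x hx'
    unfold qf at h3
    omega
  have hint : DirectSum.IsInternal (Mg U.val) :=
    DirectSum.isInternal_submodule_of_iSupIndep_of_iSup_eq_top hind hsup
  let bb := hint.collectedBasis (fun g => Module.Free.chooseBasis ℤ (Mg U.val g))
  let σ := bb.indexEquiv (Pi.basisFun ℤ (Fin n))
  let b : Module.Basis (Fin n) ℤ (Fin n → ℤ) := bb.reindex σ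
  have hb : ∀ k, b k ∈ Mg U.val (σ.symm k).1 := by
    intro k
    rw [Module.Basis.reindex_apply]
    exact hint.collectedBasis_mem _ _
  choose v hv using hb
  let Bm : Matrix (Fin n) (Fin n) ℤ := fun k i => b k i
  have hBm : IsUnit Bm := by
    have h1 : Bm = ((Pi.basisFun ℤ (Fin n)).toMatrix b)ᵀ := by
      ext1 i j
      rw [Matrix.transpose_apply, Module.Basis.toMatrix_apply, Pi.basisFun_repr]
    rw [h1]
    have h2 : IsUnit ((Pi.basisFun ℤ (Fin n)).toMatrix b) := by
      haveI := (Pi.basisFun ℤ (Fin n)).invertibleToMatrix b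
      exact isUnit_of_invertible _
    exact (Matrix.isUnit_transpose _).2 h2
  obtain ⟨Bu, hBu⟩ := hBm
  let W : Matrix (Fin n) (Fin n) ℤ := fun k i => v k i
  let D : Matrix (Fin n) (Fin n) (MonoidAlgebra ℤ Γ) :=
    Matrix.diagonal (fun k => MonoidAlgebra.single (σ.symm k).1 (1 : ℤ))
  let D' : Matrix (Fin n) (Fin n) (MonoidAlgebra ℤ Γ) :=
    Matrix.diagonal (fun k => MonoidAlgebra.single ((σ.symm k).1)⁻¹ (1 : ℤ))
  have hD : D' * D = 1 := by
    change Matrix.diagonal _ * Matrix.diagonal _ = 1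
    rw [Matrix.diagonal_mul_diagonal, ← Matrix.diagonal_one]
    congr 1
    funext k
    rw [MonoidAlgebra.single_mul_single, inv_mul_cancel, one_mul, MonoidAlgebra.one_def]
  have hmain : cst Bm * U.val = D * cst W := by
    ext1 k i
    have h1 := congrFun (hv k) i
    change (∑ m, tr (1 : Γ) (b k) m * U.val m i) = tr _ (v k) i at h1
    rw [Matrix.mul_apply]
    change (∑ m, tr (1 : Γ) (b k) m * U.val m i) = _
    rw [h1, Matrix.diagonal_mul]
    change MonoidAlgebra.single _ (v k i) = MonoidAlgebra.single _ 1 * MonoidAlgebra.single 1 (v k i)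
    rw [MonoidAlgebra.single_mul_single, mul_one, one_mul]
  have hcm : ∀ X Y : Matrix (Fin n) (Fin n) ℤ,
      (cst (X * Y) : Matrix (Fin n) (Fin n) (MonoidAlgebra ℤ Γ)) = cst X * cst Y := by
    intro X Y
    exact Matrix.map_mul (f := (io : ℤ →+* MonoidAlgebra ℤ Γ))
  have hc1 : (cst 1 : Matrix (Fin n) (Fin n) (MonoidAlgebra ℤ Γ)) = 1 :=
    Matrix.map_one (io : ℤ →+* MonoidAlgebra ℤ Γ) (map_zero _) (map_one _)
  have hUe : U.val = cst Bu.inv * (D * cst W) := by
    rw [← hmain, ← mul_assoc, ← hcm, ← hBu, Bu.inv_val, hc1, one_mul]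
  -- `W` is invertible
  have hcW : cst W = D' * (cst Bm * U.val) := by
    rw [hmain, ← mul_assoc, hD, one_mul]
  have haug : ∀ X : Matrix (Fin n) (Fin n) ℤ,
      (cst X : Matrix (Fin n) (Fin n) (MonoidAlgebra ℤ Γ)).map aug = X := by
    intro X
    ext1 i j
    unfold cst aug
    rw [Matrix.map_apply, Matrix.map_apply]
    simp
  have hW : IsUnit W := by
    have h1 : W = (D'.map aug) * (Bm * U.val.map aug) := by
      rw [← haug W, hcW, Matrix.map_mul, Matrix.map_mul, haug]
    have h2 : IsUnit (D'.map aug) := by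
      have h3 : D'.map (aug : MonoidAlgebra ℤ Γ →+* ℤ) = 1 := by
        change (Matrix.diagonal _).map _ = 1
        rw [Matrix.diagonal_map (map_zero _), ← Matrix.diagonal_one]
        congr 1
        funext k
        unfold aug
        simp
      rw [h3]
      exact isUnit_one
    have h4 : IsUnit (U.val.map (aug : MonoidAlgebra ℤ Γ →+* ℤ)) :=
      U.isUnit.map (aug : MonoidAlgebra ℤ Γ →+* ℤ).mapMatrix
    rw [h1]
    exact h2.mul ((hBu ▸ Bu.isUnit).mul h4)
  obtain ⟨Wu, hWu⟩ := hW
  refine ⟨Bu⁻¹, Wu, fun k => (σ.symm k).1, ?_⟩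
  rw [hWu, mul_assoc]
  exact hUe

end Pool.Agent.Q184.DF
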