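import Pool.Agent.Q184.DF.Ring

/-!
Constant positive definite forms over the integral group ring of an arbitrary group: isometries and
self-adjoint idempotents.
-/

set_option autoImplicit false

namespace Pool.Agent.Q184.DF

open Finset Filter Matrix

/-- Kneser irreducible vectors. -/
def KIr {L : Type} [AddCommGroup L] (B : L →+ L →+ ℤ) (y : L) : Prop :=
  y ≠ 0 ∧ ∀ u v : L, u + v = y → 0 ≤ B u v → u = 0 ∨ v = 0

/-- In a positive definite lattice every vector is a sum of irreducible vectors. -/
theorem kir_generate {L : Type} [AddCommGroup L] (B : L →+ L →+ ℤ)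
    (hs : ∀ x y, B x y = B y x) (hp : ∀ x, x ≠ 0 → 0 < B x x) (x : L) :
    x ∈ AddSubgroup.closure {y | KIr B y} := by
  have key : ∀ (N : ℕ) (x : L), B x x < N → x ∈ AddSubgroup.closure {y | KIr B y} := by
    intro N
    induction N with
    | zero =>
      intro x hx
      by_cases h0 : x = 0
      · rw [h0]; exact zero_mem _
      · have := hp x h0
        push_cast at hx
        omega
    | succ N ih =>
      intro x hx
      by_cases h0 : x = 0
      · rw [h0]; exact zero_mem _
      by_cases hk : KIr B x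
      · exact AddSubgroup.subset_closure hk
      · unfold KIr at hk
        push Not at hk
        obtain ⟨u, v, huv, h1, hu, hv⟩ := hk h0
        have hu' := hp u hu
        have hv' := hp v hv
        have h8 : B x x = B u u + 2 * B u v + B v v := by
          rw [← huv, map_add, map_add, AddMonoidHom.add_apply, AddMonoidHom.add_apply, hs v u]
          ring
        push_cast at hx
        rw [← huv]
        exact add_mem (ih u (by omega)) (ih v (by omega))
  exact key ((B x x).toNat + 1) x (by
    have := Int.self_le_toNat (B x x)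
    push_cast
    omega)

variable {Γ : Type} [Group Γ] {n : ℕ}

/-- the integers in the group ring -/
noncomputable def io : ℤ →+* MonoidAlgebra ℤ Γ := MonoidAlgebra.singleOneRingHom

lemma io_apply (z : ℤ) : (io z : MonoidAlgebra ℤ Γ) = MonoidAlgebra.single 1 z := rfl

/-- the translate by `g` of the constant vector `w` -/
noncomputable def tr (g : Γ) (w : Fin n → ℤ) : Fin n → MonoidAlgebra ℤ Γ :=
  fun i => MonoidAlgebra.single g (w i)

lemma tr_add (g : Γ) (w w' : Fin n → ℤ) : tr g (w + w') = tr g w + tr g w' := by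
  funext i
  exact MonoidAlgebra.single_add _ _ _

lemma tr_zero (g : Γ) : tr g (0 : Fin n → ℤ) = 0 := by
  funext i
  exact MonoidAlgebra.single_zero _

lemma tr_coeff (g : Γ) (w : Fin n → ℤ) (i : Fin n) (h : Γ) [Decidable (g = h)] :
    (tr g w i).coeff h = if g = h then w i else 0 := by
  unfold tr
  rw [MonoidAlgebra.coeff_single, Finsupp.single_apply]

lemma act_tr (g h : Γ) (w : Fin n → ℤ) : act g (tr h w) = tr (g * h) w := by
  funext i
  unfold act tr
  rw [Pi.smul_apply, smul_eq_mul, MonoidAlgebra.single_mul_single, one_mul]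

/-- the coefficient vector at `g` -/
noncomputable def cf (g : Γ) (x : Fin n → MonoidAlgebra ℤ Γ) : Fin n → ℤ :=
  fun i => (x i).coeff g

lemma cf_add (g : Γ) (x y : Fin n → MonoidAlgebra ℤ Γ) : cf g (x + y) = cf g x + cf g y := rfl

lemma cf_zero (g : Γ) : cf g (0 : Fin n → MonoidAlgebra ℤ Γ) = 0 := rfl

lemma cf_neg (g : Γ) (x : Fin n → MonoidAlgebra ℤ Γ) : cf g (-x) = -cf g x := by
  funext i
  change (-(x i)).coeff g = -((x i).coeff g)
  rw [MonoidAlgebra.coeff_neg, Finsupp.neg_apply]

lemma cf_tr_self (g : Γ) (w : Fin n → ℤ) : cf g (tr g w) = w := by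
  classical
  funext i
  change (tr g w i).coeff g = w i
  rw [tr_coeff, if_pos rfl]

lemma cf_tr_ne {g h : Γ} (hgh : g ≠ h) (w : Fin n → ℤ) : cf h (tr g w) = 0 := by
  classical
  funext i
  change (tr g w i).coeff h = 0
  rw [tr_coeff, if_neg hgh]

lemma ext_cf {x y : Fin n → MonoidAlgebra ℤ Γ} (h : ∀ g, cf g x = cf g y) : x = y := by
  funext i
  ext g
  exact congrFun (h g) i

/-- the constant form -/
noncomputable def cst (C : Matrix (Fin n) (Fin n) ℤ) :
    Matrix (Fin n) (Fin n) (MonoidAlgebra ℤ Γ) := C.map (MonoidAlgebra.single 1)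

/-- the value of the integral form -/
def qf (C : Matrix (Fin n) (Fin n) ℤ) (w w' : Fin n → ℤ) : ℤ := ∑ k, ∑ l, w k * C k l * w' l

lemma form_tr (C : Matrix (Fin n) (Fin n) ℤ) (g : Γ) (w : Fin n → ℤ)
    (y : Fin n → MonoidAlgebra ℤ Γ) : form (cst C) (tr g w) y = qf C w (cf g y) := by
  rw [form_apply]
  unfold herm qf
  rw [MonoidAlgebra.coeff_sum, Finsupp.finsetSum_apply]
  refine Finset.sum_congr rfl fun k _ => ?_
  rw [MonoidAlgebra.coeff_sum, Finsupp.finsetSum_apply]
  refine Finset.sum_congr rfl fun l _ => ?_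
  unfold tr cst cf
  rw [Matrix.map_apply, MonoidAlgebra.single_mul_single, MonoidAlgebra.coeff_single_mul_apply,
    coeff_bar]
  simp

variable {C : Matrix (Fin n) (Fin n) ℤ}

/-- symmetry and positivity of the integral matrix -/
structure PD (C : Matrix (Fin n) (Fin n) ℤ) : Prop where
  symm : ∀ i j, C i j = C j i
  pos : ∀ w : Fin n → ℤ, w ≠ 0 → 0 < ∑ k, ∑ l, w k * C k l * w l

lemma adj_cst (h : PD C) : adj (cst C : Matrix (Fin n) (Fin n) (MonoidAlgebra ℤ Γ)) = cst C := by
  ext1 i j
  rw [adj_apply]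
  unfold cst
  rw [Matrix.map_apply, Matrix.map_apply, bar_single, inv_one, h.symm]

lemma cst_symm (h : PD C) (x y : Fin n → MonoidAlgebra ℤ Γ) :
    form (cst C) x y = form (cst C) y x := by
  rw [form_apply, form_apply, herm_symm (cst C) (adj_cst h) y x, coeff_bar, inv_one]

lemma decomp [DecidableEq Γ] (x : Fin n → MonoidAlgebra ℤ Γ) :
    x = ∑ g ∈ Finset.univ.biUnion (fun i => (x i).coeff.support), tr g (cf g x) := by
  apply ext_cf
  intro h
  funext i
  change (x i).coeff h = _
  change _ = ((∑ g ∈ Finset.univ.biUnion (fun i => (x i).coeff.support), tr g (cf g x)) i).coeff h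
  rw [Finset.sum_apply, MonoidAlgebra.coeff_sum, Finsupp.finsetSum_apply]
  rw [Finset.sum_eq_single h]
  · rw [tr_coeff, if_pos rfl]
    rfl
  · intro g _ hg
    rw [tr_coeff, if_neg hg]
  · intro hh
    rw [tr_coeff, if_pos rfl]
    change (x i).coeff h = 0
    by_contra h0
    exact hh (Finset.mem_biUnion.2 ⟨i, Finset.mem_univ _, Finsupp.mem_support_iff.2 h0⟩)

lemma cst_pos (h : PD C) (x : Fin n → MonoidAlgebra ℤ Γ) (hx : x ≠ 0) :
    0 < form (cst C) x x := by
  classical
  have h0 : ∀ y, form (cst C) x y =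
      ∑ g ∈ Finset.univ.biUnion (fun i => (x i).coeff.support), qf C (cf g x) (cf g y) := by
    intro y
    have h := congrArg (fun z => form (cst C) z y) (decomp x)
    change form (cst C) x y = form (cst C) (∑ g ∈ Finset.univ.biUnion
      (fun i => (x i).coeff.support), tr g (cf g x)) y at h
    rw [h, map_sum, AddMonoidHom.finsetSum_apply]
    refine Finset.sum_congr rfl fun g _ => ?_
    rw [form_tr]
  have h1 := h0 x
  rw [h1]
  obtain ⟨g, hg⟩ : ∃ g, cf g x ≠ 0 := by
    by_contra hcon
    push Not at hcon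
    exact hx (ext_cf (fun g => by rw [hcon g]; rfl))
  refine Finset.sum_pos' ?_ ⟨g, ?_, h.pos _ hg⟩
  · intro k _
    by_cases hk : cf k x = 0
    · rw [hk]
      unfold qf
      simp
    · exact (h.pos _ hk).le
  · obtain ⟨i, hi⟩ := Function.ne_iff.1 hg
    exact Finset.mem_biUnion.2 ⟨i, Finset.mem_univ _, Finsupp.mem_support_iff.2 hi⟩

/-- Irreducible vectors are concentrated in one translate. -/
lemma kir_single (x : Fin n → MonoidAlgebra ℤ Γ) (hx : KIr (form (cst C)) x) :
    ∃ g : Γ, x = tr g (cf g x) := by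
  obtain ⟨g, hg⟩ : ∃ g, cf g x ≠ 0 := by
    by_contra hcon
    push Not at hcon
    exact hx.1 (ext_cf (fun g => by rw [hcon g]; rfl))
  refine ⟨g, ?_⟩
  have h1 : tr g (cf g x) + (x - tr g (cf g x)) = x := by abel
  have h2 : form (cst C) (tr g (cf g x)) (x - tr g (cf g x)) = 0 := by
    rw [form_tr, sub_eq_add_neg, cf_add, cf_neg, cf_tr_self, add_neg_cancel]
    unfold qf
    simp
  rcases hx.2 _ _ h1 (by rw [h2]) with h3 | h3
  · exfalso
    apply hg
    rw [← cf_tr_self g (cf g x), h3]
    rfl
  · exact sub_eq_zero.1 h3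

/-- Constant vectors are sums of constant vectors which are irreducible in the big lattice. -/
lemma const_generate (h : PD C) (w : Fin n → ℤ) :
    w ∈ AddSubgroup.closure {w' : Fin n → ℤ | KIr (form (cst C)) (tr (1 : Γ) w')} := by
  have h1 : ∀ x ∈ AddSubgroup.closure {y : Fin n → MonoidAlgebra ℤ Γ | KIr (form (cst C)) y},
      cf 1 x ∈ AddSubgroup.closure {w' : Fin n → ℤ | KIr (form (cst C)) (tr (1 : Γ) w')} := by
    intro x hx
    induction hx using AddSubgroup.closure_induction with
    | mem x hx =>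
      obtain ⟨g, hg⟩ := kir_single x hx
      by_cases h1 : g = 1
      · subst h1
        apply AddSubgroup.subset_closure
        change KIr (form (cst C)) (tr 1 (cf 1 x))
        rw [← hg]
        exact hx
      · rw [hg, cf_tr_ne h1]
        exact zero_mem _
    | zero => exact zero_mem _
    | add x y _ _ hx hy => rw [cf_add]; exact add_mem hx hy
    | neg x _ hx => rw [cf_neg]; exact neg_mem hx
  have h2 := h1 (tr 1 w) (kir_generate _ (cst_symm h) (cst_pos h) _)
  rwa [cf_tr_self] at h2

end Pool.Agent.Q184.DF
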