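import Pool.Agent.Q184.DF.Ring

/-!
Positive definite hermitian forms over the integral group ring of a torsion-free group which are
generated by vectors of norm at most two are extended from the integers.
-/

set_option autoImplicit false

namespace Pool.Agent.Q184.DF

open Finset Filter Matrix

variable {Γ : Type} [Group Γ] {n : ℕ} {A : Matrix (Fin n) (Fin n) (MonoidAlgebra ℤ Γ)}

lemma act_ne (htf : ∀ g : Γ, ∀ k : ℕ, 0 < k → g ^ k = 1 → g = 1) {g : Γ} (hg : g ≠ 1)
    {x : Fin n → MonoidAlgebra ℤ Γ} (hx : x ≠ 0) : act g x ≠ x := by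
  intro h
  obtain ⟨i, hi⟩ := Function.ne_iff.1 hx
  have h1 : (x i).coeff ≠ 0 := by
    intro h2
    exact hi (MonoidAlgebra.coeff_eq_zero.1 h2)
  obtain ⟨a, ha⟩ := Finsupp.support_nonempty_iff.2 h1
  have h2 : ∀ k : ℕ, g ^ k * a ∈ (x i).coeff.support := by
    intro k
    induction k with
    | zero => simpa using ha
    | succ k ih =>
      rw [Finsupp.mem_support_iff] at ih ⊢
      rw [← h, act_coeff]
      rw [pow_succ', mul_assoc, inv_mul_cancel_left]
      exact ih
  obtain ⟨k, l, hkl, h3⟩ := Finite.exists_ne_map_eq_of_infinite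
    (fun k : ℕ => (⟨g ^ k * a, h2 k⟩ : {b // b ∈ (x i).coeff.support}))
  have h4 : g ^ k = g ^ l := mul_right_cancel (congrArg Subtype.val h3)
  have key : ∀ k l : ℕ, k < l → g ^ k = g ^ l → False := by
    intro k l hkl h4
    apply hg
    apply htf g (l - k) (by omega)
    have h5 : g ^ l = g ^ k * g ^ (l - k) := by rw [← pow_add]; congr 1; omega
    rw [h5] at h4
    exact (left_eq_mul.1 h4)
  rcases lt_or_gt_of_ne hkl with h5 | h5
  · exact key k l h5 h4
  · exact key l k h5 h4.symm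

lemma act_S (g : Γ) {x : Fin n → MonoidAlgebra ℤ Γ} (hx : x ∈ S (form A)) :
    act g x ∈ S (form A) := by
  refine ⟨⟨?_, ?_⟩, ?_⟩
  · intro h
    exact hx.1.1 (act_eq_zero.1 h)
  · intro u v huv h0
    have h1 := hx.1.2 (act g⁻¹ u) (act g⁻¹ v) (by rw [← act_add, huv, act_inv_act])
      (by rw [form_act]; exact h0)
    rcases h1 with h1 | h1
    · exact Or.inl (act_eq_zero.1 h1)
    · exact Or.inr (act_eq_zero.1 h1)
  · rw [form_act]
    exact hx.2

lemma act_rel (g : Γ) {x y : Fin n → MonoidAlgebra ℤ Γ} (h : Rel (form A) x y) :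
    Rel (form A) (act g x) (act g y) := by
  obtain ⟨z, hz, h1, h2⟩ := h
  exact ⟨act g z, act_S g hz, by rwa [form_act], by rwa [form_act]⟩

/-- The action on the classes is free. -/
lemma act_free (htf : ∀ g : Γ, ∀ k : ℕ, 0 < k → g ^ k = 1 → g = 1)
    (h : Dat (coords (Γ := Γ) (n := n)) (form A)) {x : Fin n → MonoidAlgebra ℤ Γ}
    (hx : x ∈ S (form A)) {g : Γ} (hg : Rel (form A) (act g x) x) : g = 1 := by
  by_contra hne
  have h1 : ∀ k : ℕ, Rel (form A) (act (g ^ k) x) x := by
    intro k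
    induction k with
    | zero => rw [pow_zero, act_one]; exact rel_refl h hx
    | succ k ih =>
      rw [pow_succ, act_mul]
      exact rel_trans h (act_S _ (act_S _ hx)) (act_S _ hx) hx (act_rel _ hg) ih
  have h2 := class_finite h x
  have h3 : ∀ k : ℕ, act (g ^ k) x ∈ {y | y ∈ S (form A) ∧ Rel (form A) x y} :=
    fun k => ⟨act_S _ hx, rel_symm h (h1 k)⟩
  have h2' := h2.to_subtype
  obtain ⟨k, l, hkl, h4⟩ := Finite.exists_ne_map_eq_of_infinite
    (fun k : ℕ => (⟨act (g ^ k) x, h3 k⟩ : {y | y ∈ S (form A) ∧ Rel (form A) x y}))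
  have h5 : act (g ^ k) x = act (g ^ l) x := congrArg Subtype.val h4
  have key : ∀ k l : ℕ, k < l → act (g ^ k) x = act (g ^ l) x → False := by
    intro k l hkl h4
    have h6 : g ^ l = g ^ k * g ^ (l - k) := by rw [← pow_add]; congr 1; omega
    rw [h6, act_mul] at h4
    have h7 : x = act (g ^ (l - k)) x := by
      have h9 := congrArg (act (g ^ k)⁻¹) h4
      rwa [act_inv_act, act_inv_act] at h9
    have h8 : g ^ (l - k) ≠ 1 := fun h9 => hne (htf g (l - k) (by omega) h9)
    exact act_ne htf h8 hx.1.1 h7.symm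
  rcases lt_or_gt_of_ne hkl with h6 | h6
  · exact key k l h6 h5
  · exact key l k h6 h5.symm

/-- the relation generated by `Rel` and the action -/
def RelG (A : Matrix (Fin n) (Fin n) (MonoidAlgebra ℤ Γ)) (x y : Fin n → MonoidAlgebra ℤ Γ) :
    Prop := ∃ g : Γ, Rel (form A) (act g x) y

/-- the setoid -/
def std (h : Dat (coords (Γ := Γ) (n := n)) (form A)) : Setoid (S (form A)) where
  r x y := RelG A x.1 y.1
  iseqv := by
    refine ⟨fun x => ⟨1, by rw [act_one]; exact rel_refl h x.2⟩, ?_, ?_⟩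
    · rintro x y ⟨g, hg⟩
      refine ⟨g⁻¹, ?_⟩
      have := act_rel g⁻¹ hg
      rw [act_inv_act] at this
      exact rel_symm h this
    · rintro x y z ⟨g, hg⟩ ⟨k, hk⟩
      refine ⟨k * g, ?_⟩
      rw [act_mul]
      exact rel_trans h (act_S _ (act_S _ x.2)) (act_S _ y.2) z.2 (act_rel k hg) hk

section

variable (h : Dat (coords (Γ := Γ) (n := n)) (form A))

/-- the representative of a class of orbits -/
noncomputable def rep (τ : Quotient (std h)) : Fin n → MonoidAlgebra ℤ Γ :=
  (Quotient.out τ : S (form A)).1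

lemma rep_mem (τ : Quotient (std h)) : rep h τ ∈ S (form A) :=
  (Quotient.out τ : S (form A)).2

/-- the class of the representative -/
def cls (τ : Quotient (std h)) : Set (Fin n → MonoidAlgebra ℤ Γ) :=
  {y | y ∈ S (form A) ∧ Rel (form A) (rep h τ) y}

/-- its span -/
noncomputable def Mm (τ : Quotient (std h)) : Submodule ℤ (Fin n → MonoidAlgebra ℤ Γ) :=
  Submodule.span ℤ (cls h τ)

lemma Mm_finite (τ : Quotient (std h)) : Module.Finite ℤ (Mm h τ) :=
  Module.Finite.iff_fg.2 (Submodule.fg_span (class_finite h (rep h τ)))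

lemma orth_cls (htf : ∀ g : Γ, ∀ k : ℕ, 0 < k → g ^ k = 1 → g = 1) {τ τ' : Quotient (std h)}
    {g : Γ} (hne : g ≠ 1 ∨ τ ≠ τ') {u w : Fin n → MonoidAlgebra ℤ Γ} (hu : u ∈ cls h τ)
    (hw : w ∈ cls h τ') : form A (act g u) w = 0 := by
  by_contra h0
  have h1 : Rel (form A) (act g u) w := rel_of_ne h (act_S g hu.1) h0
  have h2 : Rel (form A) (act g (rep h τ)) (act g u) := act_rel g hu.2
  have h3 := rel_trans h (act_S g (rep_mem h τ)) (act_S g hu.1) hw.1 h2 h1
  have h4 := rel_trans h (act_S g (rep_mem h τ)) hw.1 (rep_mem h τ') h3 (rel_symm h hw.2)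
  have h5 : τ = τ' := by
    have h6 : (std h).r (Quotient.out τ) (Quotient.out τ') := ⟨g, h4⟩
    have h7 := Quotient.sound (s := std h) h6
    rwa [Quotient.out_eq, Quotient.out_eq] at h7
  subst h5
  rcases hne with h6 | h6
  · exact h6 (act_free htf h (rep_mem h τ) h4)
  · exact h6 rfl

lemma orth (htf : ∀ g : Γ, ∀ k : ℕ, 0 < k → g ^ k = 1 → g = 1) {τ τ' : Quotient (std h)}
    {g : Γ} (hne : g ≠ 1 ∨ τ ≠ τ') {u w : Fin n → MonoidAlgebra ℤ Γ} (hu : u ∈ Mm h τ)
    (hw : w ∈ Mm h τ') : form A (act g u) w = 0 := by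
  have h1 : ∀ u ∈ cls h τ, form A (act g u) w = 0 := by
    intro u hu
    unfold Mm at hw
    induction hw using Submodule.span_induction with
    | mem w hw => exact orth_cls h htf hne hu hw
    | zero => exact map_zero _
    | add a b _ _ ha hb => rw [map_add, ha, hb, add_zero]
    | smul z a _ ha => rw [map_zsmul, ha, smul_zero]
  unfold Mm at hu
  induction hu using Submodule.span_induction with
  | mem u hu => exact h1 u hu
  | zero => rw [act_zero, map_zero]; rfl
  | add a b _ _ ha hb => rw [act_add, map_add, AddMonoidHom.add_apply, ha, hb, add_zero]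
  | smul z a _ ha =>
    have : act g (z • a) = z • act g a := by
      unfold act
      rw [smul_comm]
    rw [this, map_zsmul, AddMonoidHom.coe_smul, Pi.smul_apply, ha, smul_zero]

/-- the index set of a basis of the span of a class -/
def Ix (τ : Quotient (std h)) : Type :=
  @Module.Free.ChooseBasisIndex ℤ (Mm h τ) _ _ _ (by have := Mm_finite h τ; infer_instance)

/-- a basis of the span of a class -/
noncomputable def bs (τ : Quotient (std h)) : Module.Basis (Ix h τ) ℤ (Mm h τ) :=
  @Module.Free.chooseBasis ℤ (Mm h τ) _ _ _ (by have := Mm_finite h τ; infer_instance)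

/-- the index set -/
abbrev KI : Type := Σ τ : Quotient (std h), Ix h τ

/-- the basis vectors -/
noncomputable def vv (k : KI h) : Fin n → MonoidAlgebra ℤ Γ := (bs h k.1 k.2 : Mm h k.1).1

lemma vv_mem (k : KI h) : vv h k ∈ Mm h k.1 := (bs h k.1 k.2 : Mm h k.1).2

lemma smul_eq_sum (a : MonoidAlgebra ℤ Γ) (x : Fin n → MonoidAlgebra ℤ Γ) :
    a • x = ∑ g ∈ a.coeff.support, (a.coeff g) • act g x := by
  conv_lhs => rw [← MonoidAlgebra.sum_coeff_single a]
  rw [Finsupp.sum, Finset.sum_smul]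
  refine Finset.sum_congr rfl fun g _ => ?_
  unfold act
  rw [← smul_assoc]
  congr 1
  rw [MonoidAlgebra.smul_single, smul_eq_mul, mul_one]

lemma form_smul_act (a : MonoidAlgebra ℤ Γ) (g0 : Γ) (x y : Fin n → MonoidAlgebra ℤ Γ)
    (hxy : ∀ g, g ≠ 1 → form A (act g x) y = 0) :
    form A (a • x) (act g0 y) = a.coeff g0 * form A x y := by
  classical
  rw [smul_eq_sum, map_sum, AddMonoidHom.finsetSum_apply]
  have h1 : ∀ g, form A ((a.coeff g) • act g x) (act g0 y) =
      if g = g0 then a.coeff g0 * form A x y else 0 := by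
    intro g
    rw [map_zsmul, AddMonoidHom.coe_smul, Pi.smul_apply]
    by_cases hg : g = g0
    · rw [if_pos hg, hg, form_act, smul_eq_mul]
    · rw [if_neg hg]
      have h2 : form A (act g x) (act g0 y) = form A (act (g0⁻¹ * g) x) y := by
        rw [← form_act A g0 (act (g0⁻¹ * g) x) y, ← act_mul, mul_inv_cancel_left]
      rw [h2, hxy _ (fun h3 => hg (by rw [inv_mul_eq_one] at h3; exact h3.symm)), smul_zero]
  rw [Finset.sum_congr rfl (fun g _ => h1 g), Finset.sum_ite_eq']
  split_ifs with h3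
  · rfl
  · rw [Finsupp.notMem_support_iff.1 h3, zero_mul]

theorem vv_indep (htf : ∀ g : Γ, ∀ k : ℕ, 0 < k → g ^ k = 1 → g = 1) :
    LinearIndependent (MonoidAlgebra ℤ Γ) (vv h) := by
  classical
  rw [linearIndependent_iff']
  intro s a hsum k0 hk0
  obtain ⟨τ, i0⟩ := k0
  ext g0
  have hinj : Set.InjOn (Sigma.mk τ : Ix h τ → KI h) ((Sigma.mk τ : Ix h τ → KI h) ⁻¹' (s : Set (KI h))) :=
    fun a _ b _ hab => sigma_mk_injective hab
  set s0 := s.preimage (Sigma.mk τ : Ix h τ → KI h) hinj with hs0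
  set y : Fin n → MonoidAlgebra ℤ Γ := ∑ i ∈ s0, ((a ⟨τ, i⟩).coeff g0) • vv h ⟨τ, i⟩ with hy
  have hyM : y ∈ Mm h τ := Submodule.sum_mem _ fun i _ =>
    Submodule.smul_mem _ _ (vv_mem h (⟨τ, i⟩ : KI h))
  have h1 : form A (∑ k ∈ s, a k • vv h k) (act g0 y) = 0 := by
    rw [hsum, map_zero]; rfl
  rw [map_sum, AddMonoidHom.finsetSum_apply] at h1
  have h2 : ∀ k : KI h, form A (a k • vv h k) (act g0 y) =
      (a k).coeff g0 * form A (vv h k) y := by
    intro k
    exact form_smul_act _ _ _ _ (fun g hg => orth h htf (Or.inl hg) (vv_mem h k) hyM)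
  rw [Finset.sum_congr rfl (fun k _ => h2 k),
    ← Finset.sum_preimage (Sigma.mk τ : Ix h τ → KI h) s hinj] at h1
  swap
  · rintro ⟨τ', i⟩ _ hr
    have hne : τ' ≠ τ := by
      rintro rfl
      exact hr ⟨i, rfl⟩
    have := orth h htf (g := 1) (Or.inr hne) (vv_mem h (⟨τ', i⟩ : KI h)) hyM
    rw [act_one] at this
    rw [this, mul_zero]
  have hyw : ∀ w, form A y w = ∑ i ∈ s0, (a ⟨τ, i⟩).coeff g0 * form A (vv h ⟨τ, i⟩) w := by
    intro w
    rw [hy, map_sum, AddMonoidHom.finsetSum_apply]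
    refine Finset.sum_congr rfl fun i _ => ?_
    rw [map_zsmul, AddMonoidHom.coe_smul, Pi.smul_apply, smul_eq_mul]
  have h3 : form A y y = 0 := (hyw y).trans h1
  have h4 : y = 0 := by
    by_contra h5
    exact absurd h3 (h.pos y h5).ne'
  have h5 : ∑ i ∈ s0, ((a ⟨τ, i⟩).coeff g0) • (bs h τ i) = 0 := by
    apply Subtype.ext
    rw [Submodule.coe_sum]
    exact h4
  have h6 := (linearIndependent_iff'.1 (bs h τ).linearIndependent) s0
    (fun i => (a ⟨τ, i⟩).coeff g0) h5 i0 (Finset.mem_preimage.2 hk0)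
  exact h6

theorem vv_span (hgen : Submodule.span (MonoidAlgebra ℤ Γ)
      {x : Fin n → MonoidAlgebra ℤ Γ | (herm A x x).coeff 1 ≤ 2} = ⊤) :
    ⊤ ≤ Submodule.span (MonoidAlgebra ℤ Γ) (Set.range (vv h)) := by
  rw [← hgen, Submodule.span_le]
  intro x hx
  have h1 : x ∈ AddSubgroup.closure (S (form A)) := short_mem h hx
  have h2 : AddSubgroup.closure (S (form A)) ≤
      (Submodule.span (MonoidAlgebra ℤ Γ) (Set.range (vv h))).toAddSubgroup := by
    rw [AddSubgroup.closure_le]
    intro s hs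
    let τ : Quotient (std h) := Quotient.mk (std h) ⟨s, hs⟩
    have h3 : (std h).r ⟨s, hs⟩ (Quotient.out τ) := Quotient.exact (s := std h) (by
      rw [Quotient.out_eq])
    obtain ⟨g, hg⟩ := h3
    have h4 : act g s ∈ Mm h τ := Submodule.subset_span ⟨act_S g hs, rel_symm h hg⟩
    have h5 : act g s ∈ Submodule.span (MonoidAlgebra ℤ Γ) (Set.range (vv h)) := by
      have h6 := (bs h τ).linearCombination_repr ⟨act g s, h4⟩
      rw [Finsupp.linearCombination_apply, Finsupp.sum] at h6
      have h7 := congrArg Subtype.val h6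
      rw [Submodule.coe_sum] at h7
      change _ = act g s at h7
      rw [← h7]
      refine Submodule.sum_mem _ fun i _ => ?_
      change (_ : ℤ) • vv h (⟨τ, i⟩ : KI h) ∈ _
      rw [← Int.cast_smul_eq_zsmul (MonoidAlgebra ℤ Γ)]
      exact Submodule.smul_mem _ _ (Submodule.subset_span ⟨_, rfl⟩)
    have h6 : s = (MonoidAlgebra.single g⁻¹ (1 : ℤ)) • act g s := (act_inv_act g s).symm
    change s ∈ Submodule.span (MonoidAlgebra ℤ Γ) (Set.range (vv h))
    rw [h6]
    exact Submodule.smul_mem _ _ h5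
  exact h2 h1

end

/-- the augmentation -/
noncomputable def aug : MonoidAlgebra ℤ Γ →+* ℤ :=
  (MonoidAlgebra.lift ℤ ℤ Γ (1 : Γ →* ℤ)).toRingHom

/-- The main theorem, for strictly positive forms. -/
theorem extended_of_dat (htf : ∀ g : Γ, ∀ k : ℕ, 0 < k → g ^ k = 1 → g = 1)
    (h : Dat (coords (Γ := Γ) (n := n)) (form A))
    (hgen : Submodule.span (MonoidAlgebra ℤ Γ)
      {x : Fin n → MonoidAlgebra ℤ Γ | (herm A x x).coeff 1 ≤ 2} = ⊤) :
    ∃ (U : (Matrix (Fin n) (Fin n) (MonoidAlgebra ℤ Γ))ˣ) (B : Matrix (Fin n) (Fin n) ℤ),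
      U.val * A * adj U.val = B.map (MonoidAlgebra.single 1) := by
  classical
  let bK : Module.Basis (KI h) (MonoidAlgebra ℤ Γ) (Fin n → MonoidAlgebra ℤ Γ) :=
    Module.Basis.mk (vv_indep h htf) (vv_span h hgen)
  have hfin : Finite (KI h) := Module.Finite.finite_basis bK
  have := Fintype.ofFinite (KI h)
  let P : Matrix (KI h) (Fin n) (MonoidAlgebra ℤ Γ) := fun k i => vv h k i
  let Q : Matrix (Fin n) (KI h) (MonoidAlgebra ℤ Γ) :=
    fun i k => bK.repr (Pi.single i 1) k
  have hbK : ∀ k, bK k = vv h k := fun k => Module.Basis.mk_apply _ _ _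
  have hQP : Q * P = 1 := by
    ext1 i j
    rw [Matrix.mul_apply]
    have h1 := bK.sum_repr (Pi.single i 1)
    have h2 := congrFun h1 j
    rw [Finset.sum_apply] at h2
    rw [Matrix.one_apply]
    have h3 : ∀ k, (bK.repr (Pi.single i 1) k • bK k) j = Q i k * P k j := by
      intro k
      rw [hbK]
      rfl
    rw [Finset.sum_congr rfl (fun k _ => h3 k)] at h2
    rw [h2, Pi.single_apply]
    by_cases hij : i = j
    · rw [if_pos hij, if_pos hij.symm]
    · rw [if_neg hij, if_neg (Ne.symm hij)]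
  have hPQ : P * Q = 1 := by
    ext1 k l
    rw [Matrix.mul_apply]
    have h1 : vv h k = ∑ i, P k i • (Pi.single i (1 : MonoidAlgebra ℤ Γ)) := by
      funext j
      rw [Finset.sum_apply, Finset.sum_eq_single j]
      · rw [Pi.smul_apply, Pi.single_eq_same, smul_eq_mul, mul_one]
      · intro i _ hi
        rw [Pi.smul_apply, Pi.single_eq_of_ne (Ne.symm hi), smul_zero]
      · intro hj; exact absurd (Finset.mem_univ _) hj
    have h2 : bK.repr (vv h k) l = ∑ i, P k i * Q i l := by
      conv_lhs => rw [h1]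
      rw [map_sum, Finsupp.finsetSum_apply]
      refine Finset.sum_congr rfl fun i _ => ?_
      rw [map_smul, Finsupp.smul_apply, smul_eq_mul]
    rw [← h2, ← hbK, Module.Basis.repr_self, Matrix.one_apply, Finsupp.single_apply]
  have hcard : Fintype.card (KI h) = n := by
    have h1 : (P.map aug) * (Q.map aug) = 1 := by
      rw [← Matrix.map_mul, hPQ]
      exact Matrix.map_one _ (map_zero _) (map_one _)
    have h2 : (Q.map aug) * (P.map aug) = 1 := by
      rw [← Matrix.map_mul, hQP]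
      exact Matrix.map_one _ (map_zero _) (map_one _)
    have h3 := Matrix.square_of_invertible _ _ h1 h2
    rw [h3, Fintype.card_fin]
  let σ : Fin n ≃ KI h := (finCongr hcard.symm).trans (Fintype.equivFin (KI h)).symm
  refine ⟨⟨P.submatrix σ id, Q.submatrix id σ, ?_, ?_⟩,
    fun i j => form A (vv h (σ i)) (vv h (σ j)), ?_⟩
  · rw [← Matrix.submatrix_mul P Q σ id σ Function.bijective_id, hPQ,
      Matrix.submatrix_one_equiv]
  · rw [← Matrix.submatrix_mul Q P id σ id σ.bijective, hQP, Matrix.submatrix_id_id]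
  · ext1 i j
    have h1 : (P.submatrix σ id * A * adj (P.submatrix σ id)) i j =
        herm A (vv h (σ i)) (vv h (σ j)) := by
      rw [Matrix.mul_apply]
      unfold herm
      rw [Finset.sum_comm]
      refine Finset.sum_congr rfl fun l _ => ?_
      rw [Matrix.mul_apply, Finset.sum_mul]
      rfl
    change (P.submatrix σ id * A * adj (P.submatrix σ id)) i j = _
    rw [h1]
    change _ = MonoidAlgebra.single 1 (form A (vv h (σ i)) (vv h (σ j)))
    ext g
    rw [herm_coeff, MonoidAlgebra.coeff_single, Finsupp.single_apply]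
    by_cases hg : (1 : Γ) = g
    · rw [if_pos hg, ← hg, inv_one, act_one]
    · rw [if_neg hg]
      by_cases ht : (σ i).1 = (σ j).1
      · exact orth h htf (Or.inl (fun h2 => hg (inv_eq_one.1 h2).symm)) (vv_mem h (σ i))
          (vv_mem h (σ j))
      · exact orth h htf (Or.inr ht) (vv_mem h (σ i)) (vv_mem h (σ j))

end Pool.Agent.Q184.DF
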