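import Pool.Agent.Q184.DF.Abs

/-!
Hermitian forms over integral group rings.
-/

set_option autoImplicit false

namespace Pool.Agent.Q184.DF

open Finset Filter Matrix

variable {Γ : Type} [Group Γ] {n : ℕ}

/-- the involution of the group ring with `g ↦ g⁻¹` -/
noncomputable def bar (x : MonoidAlgebra ℤ Γ) : MonoidAlgebra ℤ Γ :=
  MonoidAlgebra.mapDomain (fun g => g⁻¹) x

theorem coeff_bar (x : MonoidAlgebra ℤ Γ) (g : Γ) : (bar x).coeff g = x.coeff g⁻¹ := by
  unfold bar
  have h2 : MonoidAlgebra.mapDomain (fun g => g⁻¹) x =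
      MonoidAlgebra.mapDomainAddEquiv (R := ℤ) (Equiv.inv Γ) x := rfl
  rw [h2]
  simp

theorem bar_single (g : Γ) (r : ℤ) :
    bar (MonoidAlgebra.single g r) = MonoidAlgebra.single g⁻¹ r := by
  unfold bar
  rw [MonoidAlgebra.mapDomain_single]

theorem bar_zero : bar (0 : MonoidAlgebra ℤ Γ) = 0 := by
  unfold bar; exact MonoidAlgebra.mapDomain_zero _

theorem bar_add (x y : MonoidAlgebra ℤ Γ) : bar (x + y) = bar x + bar y := by
  unfold bar; exact MonoidAlgebra.mapDomain_add _ _ _

theorem bar_bar (x : MonoidAlgebra ℤ Γ) : bar (bar x) = x := by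
  ext g; rw [coeff_bar, coeff_bar, inv_inv]

theorem bar_one : bar (1 : MonoidAlgebra ℤ Γ) = 1 := by
  rw [MonoidAlgebra.one_def, bar_single, inv_one]

theorem bar_sum {ι : Type*} (s : Finset ι) (f : ι → MonoidAlgebra ℤ Γ) :
    bar (∑ i ∈ s, f i) = ∑ i ∈ s, bar (f i) := by
  classical
  induction s using Finset.induction_on with
  | empty => simp [bar_zero]
  | insert i s hi ih => rw [Finset.sum_insert hi, Finset.sum_insert hi, bar_add, ih]

theorem bar_mul (x y : MonoidAlgebra ℤ Γ) : bar (x * y) = bar y * bar x := by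
  induction x using MonoidAlgebra.induction_linear with
  | zero => simp [bar_zero]
  | add x1 x2 h1 h2 => rw [add_mul, bar_add, h1, h2, bar_add, mul_add]
  | single g r =>
    induction y using MonoidAlgebra.induction_linear with
    | zero => simp [bar_zero]
    | add y1 y2 h1 h2 => rw [mul_add, bar_add, h1, h2, bar_add, add_mul]
    | single h s =>
      rw [MonoidAlgebra.single_mul_single, bar_single, bar_single, bar_single,
        MonoidAlgebra.single_mul_single, _root_.mul_inv_rev, mul_comm r s]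

/-- The adjoint (conjugate transpose) of a matrix over the group ring. -/
noncomputable def adj {m n : Type*} (A : Matrix m n (MonoidAlgebra ℤ Γ)) :
    Matrix n m (MonoidAlgebra ℤ Γ) := fun j i => bar (A i j)

theorem adj_apply {m n : Type*} (A : Matrix m n (MonoidAlgebra ℤ Γ)) (i : m) (j : n) :
    adj A j i = bar (A i j) := rfl

theorem adj_mul {l m n : Type*} [Fintype m] (A : Matrix l m (MonoidAlgebra ℤ Γ))
    (B : Matrix m n (MonoidAlgebra ℤ Γ)) : adj (A * B) = adj B * adj A := by
  ext1 j i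
  rw [adj_apply, Matrix.mul_apply, Matrix.mul_apply, bar_sum]
  exact Finset.sum_congr rfl fun k _ => by rw [bar_mul]; rfl

theorem adj_adj {m n : Type*} (A : Matrix m n (MonoidAlgebra ℤ Γ)) : adj (adj A) = A := by
  ext1 i j; exact bar_bar _

theorem adj_one {m : Type*} [DecidableEq m] :
    adj (1 : Matrix m m (MonoidAlgebra ℤ Γ)) = 1 := by
  ext1 j i
  rw [adj_apply, Matrix.one_apply, Matrix.one_apply]
  by_cases h : i = j
  · rw [if_pos h, if_pos h.symm, bar_one]
  · rw [if_neg h, if_neg (Ne.symm h), bar_zero]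

/-- The sesquilinear form `x A y^*` of two rows `x`, `y`. -/
noncomputable def herm (A : Matrix (Fin n) (Fin n) (MonoidAlgebra ℤ Γ))
    (x y : Fin n → MonoidAlgebra ℤ Γ) : MonoidAlgebra ℤ Γ :=
  ∑ k, ∑ l, x k * A k l * bar (y l)

variable (A : Matrix (Fin n) (Fin n) (MonoidAlgebra ℤ Γ))

lemma herm_add_left (x x' y : Fin n → MonoidAlgebra ℤ Γ) :
    herm A (x + x') y = herm A x y + herm A x' y := by
  unfold herm
  rw [← Finset.sum_add_distrib]
  refine Finset.sum_congr rfl fun k _ => ?_
  rw [← Finset.sum_add_distrib]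
  refine Finset.sum_congr rfl fun l _ => ?_
  rw [Pi.add_apply, add_mul, add_mul]

lemma herm_add_right (x y y' : Fin n → MonoidAlgebra ℤ Γ) :
    herm A x (y + y') = herm A x y + herm A x y' := by
  unfold herm
  rw [← Finset.sum_add_distrib]
  refine Finset.sum_congr rfl fun k _ => ?_
  rw [← Finset.sum_add_distrib]
  refine Finset.sum_congr rfl fun l _ => ?_
  rw [Pi.add_apply, bar_add, mul_add]

lemma herm_smul_left (r : MonoidAlgebra ℤ Γ) (x y : Fin n → MonoidAlgebra ℤ Γ) :
    herm A (r • x) y = r * herm A x y := by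
  unfold herm
  rw [Finset.mul_sum]
  refine Finset.sum_congr rfl fun k _ => ?_
  rw [Finset.mul_sum]
  refine Finset.sum_congr rfl fun l _ => ?_
  rw [Pi.smul_apply, smul_eq_mul, mul_assoc, mul_assoc, mul_assoc]

lemma herm_smul_right (r : MonoidAlgebra ℤ Γ) (x y : Fin n → MonoidAlgebra ℤ Γ) :
    herm A x (r • y) = herm A x y * bar r := by
  unfold herm
  rw [Finset.sum_mul]
  refine Finset.sum_congr rfl fun k _ => ?_
  rw [Finset.sum_mul]
  refine Finset.sum_congr rfl fun l _ => ?_
  rw [Pi.smul_apply, smul_eq_mul, bar_mul, ← mul_assoc]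

lemma herm_symm (hA : adj A = A) (x y : Fin n → MonoidAlgebra ℤ Γ) :
    herm A y x = bar (herm A x y) := by
  unfold herm
  rw [bar_sum, Finset.sum_comm]
  refine Finset.sum_congr rfl fun k _ => ?_
  rw [bar_sum]
  refine Finset.sum_congr rfl fun l _ => ?_
  rw [bar_mul, bar_mul, bar_bar, ← adj_apply, hA, mul_assoc]

/-- `y ↦` the coefficient of `1` in `x A y^*`. -/
noncomputable def formR (x : Fin n → MonoidAlgebra ℤ Γ) : (Fin n → MonoidAlgebra ℤ Γ) →+ ℤ where
  toFun y := (herm A x y).coeff 1
  map_zero' := by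
    have h := herm_add_right A x 0 0
    rw [add_zero] at h
    rw [left_eq_add.1 h]
    rfl
  map_add' y y' := by
    rw [herm_add_right, MonoidAlgebra.coeff_add, Finsupp.add_apply]

/-- The integral form: the coefficient of `1` in `x A y^*`. -/
noncomputable def form : (Fin n → MonoidAlgebra ℤ Γ) →+ (Fin n → MonoidAlgebra ℤ Γ) →+ ℤ where
  toFun := formR A
  map_zero' := by
    refine AddMonoidHom.ext fun y => ?_
    change (herm A 0 y).coeff 1 = 0
    have h := herm_add_left A 0 0 y
    rw [add_zero] at h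
    rw [left_eq_add.1 h]
    rfl
  map_add' x x' := by
    refine AddMonoidHom.ext fun y => ?_
    change (herm A (x + x') y).coeff 1 = (herm A x y).coeff 1 + (herm A x' y).coeff 1
    rw [herm_add_left, MonoidAlgebra.coeff_add, Finsupp.add_apply]

lemma form_apply (x y : Fin n → MonoidAlgebra ℤ Γ) : form A x y = (herm A x y).coeff 1 := rfl

/-- translation by a group element -/
noncomputable def act (g : Γ) (x : Fin n → MonoidAlgebra ℤ Γ) : Fin n → MonoidAlgebra ℤ Γ :=
  (MonoidAlgebra.single g (1 : ℤ)) • x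

lemma act_mul (g h : Γ) (x : Fin n → MonoidAlgebra ℤ Γ) : act (g * h) x = act g (act h x) := by
  unfold act
  rw [smul_smul, MonoidAlgebra.single_mul_single, one_mul]

lemma act_one (x : Fin n → MonoidAlgebra ℤ Γ) : act 1 x = x := by
  unfold act
  rw [← MonoidAlgebra.one_def, one_smul]

lemma act_inv_act (g : Γ) (x : Fin n → MonoidAlgebra ℤ Γ) : act g⁻¹ (act g x) = x := by
  rw [← act_mul, inv_mul_cancel, act_one]

lemma act_act_inv (g : Γ) (x : Fin n → MonoidAlgebra ℤ Γ) : act g (act g⁻¹ x) = x := by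
  rw [← act_mul, mul_inv_cancel, act_one]

lemma act_zero (g : Γ) : act g (0 : Fin n → MonoidAlgebra ℤ Γ) = 0 := by
  unfold act
  rw [smul_zero]

lemma act_add (g : Γ) (x y : Fin n → MonoidAlgebra ℤ Γ) : act g (x + y) = act g x + act g y := by
  unfold act
  rw [smul_add]

lemma act_eq_zero {g : Γ} {x : Fin n → MonoidAlgebra ℤ Γ} : act g x = 0 ↔ x = 0 := by
  constructor
  · intro h
    rw [← act_inv_act g x, h, act_zero]
  · rintro rfl
    exact act_zero g

lemma act_coeff (g h : Γ) (x : Fin n → MonoidAlgebra ℤ Γ) (i : Fin n) :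
    (act g x i).coeff h = (x i).coeff (g⁻¹ * h) := by
  unfold act
  rw [Pi.smul_apply, smul_eq_mul, MonoidAlgebra.coeff_single_mul_apply, one_mul]

lemma form_act (g : Γ) (x y : Fin n → MonoidAlgebra ℤ Γ) :
    form A (act g x) (act g y) = form A x y := by
  rw [form_apply, form_apply]
  unfold act
  rw [herm_smul_left, herm_smul_right, bar_single, ← mul_assoc, MonoidAlgebra.coeff_mul_single_apply,
    MonoidAlgebra.coeff_single_mul_apply]
  simp

lemma herm_coeff (x y : Fin n → MonoidAlgebra ℤ Γ) (g : Γ) :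
    (herm A x y).coeff g = form A (act g⁻¹ x) y := by
  rw [form_apply]
  unfold act
  rw [herm_smul_left, MonoidAlgebra.coeff_single_mul_apply]
  simp

/-- the coordinates -/
noncomputable def coords : (Fin n → MonoidAlgebra ℤ Γ) ≃+ ((Γ × Fin n) →₀ ℤ) where
  toFun x := Finsupp.ofSupportFinite (fun p => (x p.2).coeff p.1) (by
    have h : (⋃ i : Fin n, (fun g => (g, i)) '' ((x i).coeff.support : Set Γ)).Finite :=
      Set.finite_iUnion (fun i => (Finset.finite_toSet _).image _)
    refine h.subset ?_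
    rintro ⟨g, i⟩ hp
    rw [Set.mem_iUnion]
    refine ⟨i, g, ?_, rfl⟩
    exact Finsupp.mem_support_iff.2 hp)
  invFun f i := MonoidAlgebra.ofCoeff (f.comapDomain (fun g => (g, i)) (fun a _ b _ hab => by
    simpa using hab))
  left_inv x := by
    funext i
    ext g
    rfl
  right_inv f := by
    ext p
    rfl
  map_add' x y := by
    ext p
    rfl

lemma coords_apply (x : Fin n → MonoidAlgebra ℤ Γ) (p : Γ × Fin n) :
    coords x p = (x p.2).coeff p.1 := rfl

lemma coords_symm_single (p : Γ × Fin n) :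
    coords.symm (Finsupp.single p (1 : ℤ)) = Pi.single p.2 (MonoidAlgebra.single p.1 (1 : ℤ)) := by
  classical
  apply coords.injective
  rw [AddEquiv.apply_symm_apply]
  ext q
  rw [coords_apply, Finsupp.single_apply]
  obtain ⟨g, i⟩ := p
  obtain ⟨h, j⟩ := q
  by_cases hij : j = i
  · subst hij
    simp only [Pi.single_eq_same, MonoidAlgebra.coeff_single, Finsupp.single_apply, Prod.mk.injEq,
      and_true]
  · have : Pi.single (M := fun _ => MonoidAlgebra ℤ Γ) i (MonoidAlgebra.single g (1 : ℤ)) j = 0 :=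
      Pi.single_eq_of_ne hij _
    simp only [this, MonoidAlgebra.coeff_zero, Finsupp.coe_zero, Pi.zero_apply]
    rw [if_neg]
    intro h
    exact hij (Prod.mk.inj h).2.symm

lemma herm_single (i j : Fin n) (a b : MonoidAlgebra ℤ Γ) :
    herm A (Pi.single i a) (Pi.single j b) = a * A i j * bar b := by
  unfold herm
  rw [Finset.sum_eq_single i, Finset.sum_eq_single j]
  · rw [Pi.single_eq_same, Pi.single_eq_same]
  · intro l _ hl
    rw [Pi.single_eq_of_ne hl, bar_zero, mul_zero]
  · intro h; exact absurd (Finset.mem_univ _) h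
  · intro k _ hk
    apply Finset.sum_eq_zero
    intro l _
    rw [Pi.single_eq_of_ne hk, zero_mul, zero_mul]
  · intro h; exact absurd (Finset.mem_univ _) h

lemma lf_form (p : Γ × Fin n) : {q : Γ × Fin n | form A (coords.symm (Finsupp.single p 1))
    (coords.symm (Finsupp.single q 1)) ≠ 0}.Finite := by
  obtain ⟨g, i⟩ := p
  have h : (⋃ j : Fin n, (fun h => (g * h, j)) '' ((A i j).coeff.support : Set Γ)).Finite :=
    Set.finite_iUnion (fun i => (Finset.finite_toSet _).image _)
  refine h.subset ?_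
  rintro ⟨h, j⟩ hq
  rw [Set.mem_iUnion]
  refine ⟨j, g⁻¹ * h, ?_, by simp⟩
  rw [Set.mem_ofPred_eq, coords_symm_single, coords_symm_single, form_apply, herm_single,
    bar_single, MonoidAlgebra.coeff_mul_single_apply, MonoidAlgebra.coeff_single_mul_apply] at hq
  rw [Finset.mem_coe, Finsupp.mem_support_iff]
  simpa using hq

/-- Strict positivity of the form: `∑ x(p)² ≤ C ⟨x, x⟩`. -/
def Strict (A : Matrix (Fin n) (Fin n) (MonoidAlgebra ℤ Γ)) : Prop :=
  ∃ C : ℕ, ∀ x : Fin n → MonoidAlgebra ℤ Γ,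
    ∑ i, ∑ g ∈ (x i).coeff.support, ((x i).coeff g) ^ 2 ≤ C * (herm A x x).coeff 1

lemma sum_coords (x : Fin n → MonoidAlgebra ℤ Γ) :
    ∑ p ∈ (coords x).support, (coords x p) ^ 2 =
      ∑ i, ∑ g ∈ (x i).coeff.support, ((x i).coeff g) ^ 2 := by
  classical
  have h1 : (coords x).support ⊆
      (Finset.univ.biUnion (fun i => (x i).coeff.support)) ×ˢ (Finset.univ : Finset (Fin n)) := by
    rintro ⟨g, i⟩ hp
    rw [Finsupp.mem_support_iff, coords_apply] at hp
    rw [Finset.mem_product]
    exact ⟨Finset.mem_biUnion.2 ⟨i, Finset.mem_univ _, Finsupp.mem_support_iff.2 hp⟩,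
      Finset.mem_univ _⟩
  rw [Finset.sum_subset h1 (fun p _ hp => by rw [Finsupp.notMem_support_iff.1 hp]; ring),
    Finset.sum_product_right]
  refine Finset.sum_congr rfl fun i _ => ?_
  symm
  apply Finset.sum_subset
  · intro g hg
    exact Finset.mem_biUnion.2 ⟨i, Finset.mem_univ _, hg⟩
  · intro g _ hg
    rw [Finsupp.notMem_support_iff.1 hg]
    ring

lemma dat_of_strict (hA : adj A = A) (hS : Strict A) : Dat (coords (Γ := Γ) (n := n)) (form A) where
  symm x y := by
    rw [form_apply, form_apply, herm_symm A hA y x, coeff_bar, inv_one]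
  pos x hx := by
    obtain ⟨C, hC⟩ := hS
    have h1 := hC x
    rw [← sum_coords] at h1
    have h2 : coords x ≠ 0 := by
      intro h
      exact hx (coords.injective (by rw [h, map_zero]))
    obtain ⟨p, hp⟩ := Finsupp.support_nonempty_iff.2 h2
    have h3 : 0 < ∑ p ∈ (coords x).support, (coords x p) ^ 2 := by
      refine Finset.sum_pos' (fun _ _ => sq_nonneg _) ⟨p, hp, ?_⟩
      have := Finsupp.mem_support_iff.1 hp
      positivity
    have h4 : 0 < (C : ℤ) * (herm A x x).coeff 1 := lt_of_lt_of_le h3 h1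
    exact (pos_iff_pos_of_mul_pos h4).1 (by
      rcases lt_or_ge 0 (C : ℤ) with h5 | h5
      · exact h5
      · have h6 : (C : ℤ) = 0 := le_antisymm h5 (by positivity)
        rw [h6, zero_mul] at h4
        exact absurd h4 (lt_irrefl _))
  lf := lf_form A
  bd := by
    obtain ⟨C, hC⟩ := hS
    exact ⟨C, fun x => by rw [sum_coords]; exact hC x⟩

end Pool.Agent.Q184.DF
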