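import Pool.Agent.Q184.DF.Const

/-!
Orthogonal summands of extended positive definite forms are extended.
-/

set_option autoImplicit false

namespace Pool.Agent.Q184.DF

open Finset Filter Matrix

variable {Γ : Type} [Group Γ] {n m : ℕ}

/-- integer matrices as matrices over the group ring -/
noncomputable def mi (Γ : Type) [Group Γ] {ι κ : Type*} (X : Matrix ι κ ℤ) :
    Matrix ι κ (MonoidAlgebra ℤ Γ) :=
  X.map io

lemma mi_mul {ι κ τ : Type*} [Fintype κ] (X : Matrix ι κ ℤ) (Y : Matrix κ τ ℤ) :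
    (mi Γ (X * Y) : Matrix ι τ (MonoidAlgebra ℤ Γ)) =
      (mi Γ X : Matrix ι κ (MonoidAlgebra ℤ Γ)) * (mi Γ Y : Matrix κ τ (MonoidAlgebra ℤ Γ)) :=
  Matrix.map_mul

lemma adj_mi {ι κ : Type*} (X : Matrix ι κ ℤ) :
    adj (mi Γ X : Matrix ι κ (MonoidAlgebra ℤ Γ)) = mi Γ Xᵀ := by
  ext1 i j
  unfold mi
  rw [adj_apply, Matrix.map_apply, Matrix.map_apply, Matrix.transpose_apply, io_apply, bar_single,
    inv_one]

/-- the augmentation of matrices -/
noncomputable def ma {ι κ : Type*} (X : Matrix ι κ (MonoidAlgebra ℤ Γ)) : Matrix ι κ ℤ :=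
  X.map aug

lemma ma_mul {ι κ τ : Type*} [Fintype κ] (X : Matrix ι κ (MonoidAlgebra ℤ Γ))
    (Y : Matrix κ τ (MonoidAlgebra ℤ Γ)) : ma (X * Y) = ma X * ma Y :=
  Matrix.map_mul

lemma ma_mi {ι κ : Type*} (X : Matrix ι κ ℤ) :
    ma (mi Γ X : Matrix ι κ (MonoidAlgebra ℤ Γ)) = X := by
  ext1 i j
  unfold ma mi aug
  rw [Matrix.map_apply, Matrix.map_apply, io_apply]
  simp

/-- the projection to the first summand -/
def blk (R : Type*) [Zero R] [One R] (k l : ℕ) : Matrix (Fin k ⊕ Fin l) (Fin k ⊕ Fin l) R :=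
  fromBlocks 1 0 0 0

lemma mi_blk (k l : ℕ) : mi Γ (blk ℤ k l) = blk (MonoidAlgebra ℤ Γ) k l := by
  unfold mi blk
  rw [fromBlocks_map, Matrix.map_zero _ (map_zero _), Matrix.map_zero _ (map_zero _),
    Matrix.map_zero _ (map_zero _), Matrix.map_one _ (map_zero _) (map_one _)]

/-- An idempotent integer matrix is conjugate to a diagonal one. -/
lemma idem_diag {N : ℕ} (E0 : Matrix (Fin N) (Fin N) ℤ) (h : E0 * E0 = E0) :
    ∃ (k l : ℕ) (P : Matrix (Fin k ⊕ Fin l) (Fin N) ℤ) (R : Matrix (Fin N) (Fin k ⊕ Fin l) ℤ),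
      P * R = 1 ∧ R * P = 1 ∧
        P * E0 = blk ℤ k l * P := by
  unfold blk
  let T : (Fin N → ℤ) →ₗ[ℤ] (Fin N → ℤ) := Matrix.vecMulLinear E0
  have hT : ∀ w, T w = w ᵥ* E0 := fun w => rfl
  have hTT : ∀ w, T (T w) = T w := by
    intro w
    rw [hT, hT, Matrix.vecMul_vecMul, h]
  have hc : IsCompl (LinearMap.range T) (LinearMap.ker T) := by
    rw [isCompl_iff, Submodule.disjoint_def, codisjoint_iff, eq_top_iff]
    refine ⟨?_, ?_⟩
    · rintro x ⟨y, rfl⟩ h2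
      rw [← hTT y]
      exact LinearMap.mem_ker.1 h2
    · intro x _
      rw [Submodule.mem_sup]
      refine ⟨T x, ⟨x, rfl⟩, x - T x, ?_, by abel⟩
      rw [LinearMap.mem_ker, map_sub, hTT, sub_self]
  let bk := Module.Free.chooseBasis ℤ (LinearMap.range T)
  let bl := Module.Free.chooseBasis ℤ (LinearMap.ker T)
  let bk' := bk.reindex (Fintype.equivFin _)
  let bl' := bl.reindex (Fintype.equivFin _)
  let b := (bk'.prod bl').map (Submodule.prodEquivOfIsCompl _ _ hc)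
  refine ⟨_, _, Matrix.of (fun i j => b i j), Matrix.of (fun i j => b.repr (Pi.single i 1) j),
    ?_, ?_, ?_⟩
  · ext1 i j
    rw [Matrix.mul_apply]
    change (∑ k, b i k * b.repr (Pi.single k 1) j) = _
    have h1 : b i = ∑ k, b i k • (Pi.single k (1 : ℤ) : Fin N → ℤ) := by
      funext a
      rw [Finset.sum_apply]
      simp [Pi.single_apply]
    have h2 := congrArg (fun z => b.repr z j) h1
    simp only [map_sum, map_smul, Module.Basis.repr_self, Finsupp.finsetSum_apply,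
      Finsupp.smul_apply, smul_eq_mul] at h2
    rw [← h2, Matrix.one_apply, Finsupp.single_apply]
  · ext1 i j
    rw [Matrix.mul_apply]
    change (∑ k, b.repr (Pi.single i 1) k * b k j) = _
    have h1 := congrFun (b.sum_repr (Pi.single i (1 : ℤ))) j
    rw [Finset.sum_apply] at h1
    simp only [Pi.smul_apply, smul_eq_mul] at h1
    rw [h1, Matrix.one_apply, Pi.single_apply]
    simp only [eq_comm]
  · ext1 i j
    have h1 : ∀ x : (LinearMap.range T) , T x.1 = x.1 := by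
      rintro ⟨x, y, rfl⟩
      exact hTT y
    have h2 : ∀ x : (LinearMap.ker T) , T x.1 = 0 := fun x => LinearMap.mem_ker.1 x.2
    have hL : ((Matrix.of (fun i j => b i j) : Matrix _ (Fin N) ℤ) * E0) i j = T (b i) j := rfl
    rw [hL]
    rcases i with i | i
    · rw [Matrix.mul_apply, Finset.sum_eq_single (Sum.inl i)]
      · have h3 : b (Sum.inl i) = (bk' i).1 := by
          simp [b]
        rw [h3, h1, fromBlocks_apply₁₁, Matrix.one_apply_eq, one_mul]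
        change _ = b (Sum.inl i) j
        rw [h3]
      · rintro (k | k) _ hk
        · rw [fromBlocks_apply₁₁, Matrix.one_apply_ne (by
            intro h5; exact hk (by rw [h5])), zero_mul]
        · rw [fromBlocks_apply₁₂]; simp
      · intro h5; exact absurd (Finset.mem_univ _) h5
    · have h3 : b (Sum.inr i) = (bl' i).1 := by
        simp [b]
      rw [h3, h2, Matrix.mul_apply]
      symm
      apply Finset.sum_eq_zero
      rintro (k | k) _
      · rw [fromBlocks_apply₂₁]; simp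
      · rw [fromBlocks_apply₂₂]; simp

lemma idem_const' {E : Matrix (Fin n ⊕ Fin m) (Fin n ⊕ Fin m) (MonoidAlgebra ℤ Γ)}
    (C : Matrix (Fin n ⊕ Fin m) (Fin n ⊕ Fin m) ℤ) (hCs : ∀ i j, C i j = C j i)
    (hC : ∀ w : Fin n ⊕ Fin m → ℤ, w ≠ 0 → 0 < ∑ k, ∑ l, w k * C k l * w l)
    (hEE : E * E = E) (hsE : E * mi Γ C = mi Γ C * adj E) :
    ∃ (k l : ℕ) (P : Matrix (Fin k ⊕ Fin l) (Fin n ⊕ Fin m) ℤ)
      (R : Matrix (Fin n ⊕ Fin m) (Fin k ⊕ Fin l) ℤ),
      P * R = 1 ∧ R * P = 1 ∧ (mi Γ P : Matrix _ _ (MonoidAlgebra ℤ Γ)) * E =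
        blk (MonoidAlgebra ℤ Γ) k l * (mi Γ P : Matrix _ _ (MonoidAlgebra ℤ Γ)) := by
  classical
  obtain ⟨e⟩ : Nonempty (Fin n ⊕ Fin m ≃ Fin (n + m)) := ⟨finSumFinEquiv⟩
  obtain ⟨E', hE'⟩ : ∃ E' : Matrix (Fin (n + m)) (Fin (n + m)) (MonoidAlgebra ℤ Γ),
    E' = E.submatrix e.symm e.symm := ⟨_, rfl⟩
  obtain ⟨C', hC'⟩ : ∃ C' : Matrix (Fin (n + m)) (Fin (n + m)) ℤ,
    C' = C.submatrix e.symm e.symm := ⟨_, rfl⟩
  have hPD : PD C' := by
    rw [hC']
    refine ⟨fun i j => hCs _ _, fun w hw => ?_⟩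
    have h1 : (fun i => w (e i)) ≠ 0 := by
      intro h2
      apply hw
      funext i
      have := congrFun h2 (e.symm i)
      simpa using this
    have h2 := hC _ h1
    have h3 : (∑ k, ∑ l, w k * C.submatrix e.symm e.symm k l * w l) =
        ∑ k, ∑ l, w (e k) * C k l * w (e l) := by
      rw [← e.sum_comp]
      refine Finset.sum_congr rfl fun k _ => ?_
      rw [← e.sum_comp]
      refine Finset.sum_congr rfl fun l _ => ?_
      rw [Matrix.submatrix_apply, e.symm_apply_apply, e.symm_apply_apply]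
    rw [h3]
    exact h2
  have hE'E' : E' * E' = E' := by
    rw [hE', Matrix.submatrix_mul_equiv, hEE]
  have hsE' : E' * cst C' = cst C' * adj E' := by
    have h1 : (cst C' : Matrix _ _ (MonoidAlgebra ℤ Γ)) = (mi Γ C).submatrix e.symm e.symm := by
      rw [hC']; rfl
    have h2 : adj E' = (adj E).submatrix e.symm e.symm := by
      rw [hE']; rfl
    rw [h1, h2, hE', Matrix.submatrix_mul_equiv, Matrix.submatrix_mul_equiv, hsE]
  obtain ⟨E0, hE0⟩ := idem_const hPD E' hE'E' hsE'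
  have hE0' : E' = mi Γ E0 := hE0
  have hE0E0 : E0 * E0 = E0 := by
    rw [← ma_mi (Γ := Γ) (E0 * E0), mi_mul, ← hE0', hE'E', hE0', ma_mi]
  obtain ⟨k, l, P, R, hPR, hRP, hPE⟩ := idem_diag E0 hE0E0
  refine ⟨k, l, P.submatrix (Equiv.refl _) e, R.submatrix e (Equiv.refl _), ?_, ?_, ?_⟩
  · rw [Matrix.submatrix_mul_equiv, hPR, Matrix.submatrix_one_equiv]
  · rw [Matrix.submatrix_mul_equiv, hRP, Matrix.submatrix_one_equiv]
  · have h1 : mi Γ (P.submatrix (Equiv.refl _) e) =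
        (mi Γ P : Matrix _ _ (MonoidAlgebra ℤ Γ)).submatrix (Equiv.refl _) e := rfl
    have h2 : E = E'.submatrix e e := by
      rw [hE', Matrix.submatrix_submatrix]
      simp
    have h3 : (mi Γ P : Matrix _ _ (MonoidAlgebra ℤ Γ)) * E' =
        blk (MonoidAlgebra ℤ Γ) k l * (mi Γ P : Matrix _ _ (MonoidAlgebra ℤ Γ)) := by
      rw [hE0', ← mi_mul, hPE, mi_mul, mi_blk]
    have h4 : blk (MonoidAlgebra ℤ Γ) k l *
          (mi Γ P : Matrix _ _ (MonoidAlgebra ℤ Γ)).submatrix (Equiv.refl _) e =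
        (blk (MonoidAlgebra ℤ Γ) k l * (mi Γ P : Matrix _ _ (MonoidAlgebra ℤ Γ))).submatrix
          (Equiv.refl _) e := by
      rw [← Matrix.submatrix_mul_equiv _ _ (Equiv.refl _) (Equiv.refl _) e]
      rfl
    rw [h1, h2, Matrix.submatrix_mul_equiv, h3, h4]

lemma adj_blk (k l : ℕ) : adj (blk (MonoidAlgebra ℤ Γ) k l) = blk (MonoidAlgebra ℤ Γ) k l := by
  unfold blk
  ext1 i j
  rw [adj_apply]
  rcases i with i | i <;> rcases j with j | j
  · change bar ((1 : Matrix (Fin k) (Fin k) (MonoidAlgebra ℤ Γ)) j i) =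
      (1 : Matrix (Fin k) (Fin k) (MonoidAlgebra ℤ Γ)) i j
    rw [← adj_apply, adj_one]
  · exact bar_zero
  · exact bar_zero
  · exact bar_zero

/-- matrices which intertwine the two projections -/
lemma blk_rank {k l : ℕ} (Q : Matrix (Fin k ⊕ Fin l) (Fin n ⊕ Fin m) ℤ)
    (S : Matrix (Fin n ⊕ Fin m) (Fin k ⊕ Fin l) ℤ) (h1 : Q * S = 1) (h2 : S * Q = 1)
    (h3 : Q * blk ℤ n m = blk ℤ k l * Q) : k = n ∧ l = m := by
  have hf : ∀ a b : ℕ, (blk ℤ a b).trace = a := by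
    intro a b
    unfold blk
    unfold Matrix.trace
    rw [Fintype.sum_sum_type]
    simp
  have h4 : (blk ℤ n m).trace = (blk ℤ k l).trace := by
    calc (blk ℤ n m).trace = (S * Q * blk ℤ n m).trace := by rw [h2, one_mul]
      _ = (S * (blk ℤ k l * Q)).trace := by rw [Matrix.mul_assoc, h3]
      _ = (blk ℤ k l * Q * S).trace := by rw [Matrix.trace_mul_comm]
      _ = _ := by rw [Matrix.mul_assoc, h1, Matrix.mul_one]
  rw [hf, hf] at h4
  have h5 : k = n := by exact_mod_cast h4.symm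
  refine ⟨h5, ?_⟩
  have h6 : (Fintype.card (Fin k ⊕ Fin l) : ℤ) = Fintype.card (Fin n ⊕ Fin m) := by
    rw [← Matrix.trace_one (R := ℤ), ← Matrix.trace_one (R := ℤ), ← h1, ← h2,
      Matrix.trace_mul_comm]
  simp only [Fintype.card_sum, Fintype.card_fin] at h6
  push_cast at h6
  omega

/-- Orthogonal summands of extended positive definite forms are extended. -/
theorem summand_extended (A : Matrix (Fin n) (Fin n) (MonoidAlgebra ℤ Γ))
    (A' : Matrix (Fin m) (Fin m) (MonoidAlgebra ℤ Γ))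
    (U : (Matrix (Fin n ⊕ Fin m) (Fin n ⊕ Fin m) (MonoidAlgebra ℤ Γ))ˣ)
    (C : Matrix (Fin n ⊕ Fin m) (Fin n ⊕ Fin m) ℤ) (hCs : ∀ i j, C i j = C j i)
    (hC : ∀ w : Fin n ⊕ Fin m → ℤ, w ≠ 0 → 0 < ∑ k, ∑ l, w k * C k l * w l)
    (hU : U.val * fromBlocks A 0 0 A' * adj U.val = C.map (MonoidAlgebra.single 1)) :
    ∃ (V : (Matrix (Fin n) (Fin n) (MonoidAlgebra ℤ Γ))ˣ) (B : Matrix (Fin n) (Fin n) ℤ),
      V.val * A * adj V.val = B.map (MonoidAlgebra.single 1) := by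
  classical
  -- the idempotent
  obtain ⟨J, hJ⟩ : ∃ J : Matrix (Fin n ⊕ Fin m) (Fin n ⊕ Fin m) (MonoidAlgebra ℤ Γ),
    J = blk (MonoidAlgebra ℤ Γ) n m := ⟨_, rfl⟩
  obtain ⟨D, hD⟩ : ∃ D : Matrix (Fin n ⊕ Fin m) (Fin n ⊕ Fin m) (MonoidAlgebra ℤ Γ),
    D = fromBlocks A 0 0 A' := ⟨_, rfl⟩
  rw [← hD] at hU
  have hJJ : J * J = J := by
    rw [hJ]
    unfold blk
    rw [fromBlocks_multiply]
    simp
  have hadjJ : adj J = J := by
    rw [hJ, adj_blk]
  have hJA : J * D = D * J := by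
    rw [hJ, hD]
    unfold blk
    rw [fromBlocks_multiply, fromBlocks_multiply]
    simp
  obtain ⟨W, hW⟩ : ∃ W : Matrix (Fin n ⊕ Fin m) (Fin n ⊕ Fin m) (MonoidAlgebra ℤ Γ),
    W = U.inv := ⟨_, rfl⟩
  obtain ⟨U', hU'⟩ : ∃ U' : Matrix (Fin n ⊕ Fin m) (Fin n ⊕ Fin m) (MonoidAlgebra ℤ Γ),
    U' = U.val := ⟨_, rfl⟩
  have hWU : W * U' = 1 := by rw [hW, hU']; exact U.inv_val
  have hUW : U' * W = 1 := by rw [hW, hU']; exact U.val_inv
  have hU2 : U' * D * adj U' = mi Γ C := by rw [hU']; exact hU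
  obtain ⟨E, hE⟩ : ∃ E : Matrix (Fin n ⊕ Fin m) (Fin n ⊕ Fin m) (MonoidAlgebra ℤ Γ),
    E = U' * J * W := ⟨_, rfl⟩
  have hEE : E * E = E := by
    rw [hE]
    calc U' * J * W * (U' * J * W) = U' * J * (W * U') * J * W := by
          simp only [mul_assoc]
      _ = U' * (J * J) * W := by rw [hWU, mul_one, mul_assoc U']
      _ = _ := by rw [hJJ]
  have hUi : adj U' * adj W = 1 := by
    rw [← adj_mul, hWU, adj_one]
  have hsE : E * mi Γ C = mi Γ C * adj E := by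
    rw [← hU2, hE, adj_mul, adj_mul, hadjJ]
    calc U' * J * W * (U' * D * adj U')
        = U' * J * (W * U') * D * adj U' := by
          simp only [mul_assoc]
      _ = U' * (J * D) * adj U' := by
          rw [hWU, mul_one, mul_assoc U']
      _ = U' * D * (J * adj U') := by
          rw [hJA]; simp only [mul_assoc]
      _ = U' * D * (adj U' * adj W) * (J * adj U') := by
          rw [hUi, mul_one]
      _ = _ := by simp only [mul_assoc]
  obtain ⟨k, l, P, R, hPR, hRP, hPE⟩ := idem_const' C hCs hC hEE hsE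
  -- the conjugating matrix
  obtain ⟨Q, hQ⟩ : ∃ Q : Matrix (Fin k ⊕ Fin l) (Fin n ⊕ Fin m) (MonoidAlgebra ℤ Γ),
    Q = mi Γ P * U' := ⟨_, rfl⟩
  obtain ⟨S, hS⟩ : ∃ S : Matrix (Fin n ⊕ Fin m) (Fin k ⊕ Fin l) (MonoidAlgebra ℤ Γ),
    S = W * mi Γ R := ⟨_, rfl⟩
  have hmi1 : ∀ (ι : Type) [Fintype ι] [DecidableEq ι],
      (mi Γ (1 : Matrix ι ι ℤ) : Matrix ι ι (MonoidAlgebra ℤ Γ)) = 1 := fun ι _ _ =>
    Matrix.map_one _ (map_zero _) (map_one _)
  have hma1 : ∀ (ι : Type) [Fintype ι] [DecidableEq ι],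
      ma (1 : Matrix ι ι (MonoidAlgebra ℤ Γ)) = 1 := fun ι _ _ =>
    Matrix.map_one _ (map_zero _) (map_one _)
  have hQS : Q * S = 1 := by
    rw [hQ, hS, Matrix.mul_assoc, ← Matrix.mul_assoc U', hUW, Matrix.one_mul, ← mi_mul, hPR, hmi1]
  have hSQ : S * Q = 1 := by
    rw [hQ, hS, Matrix.mul_assoc, ← Matrix.mul_assoc (mi Γ R), ← mi_mul, hRP, hmi1, Matrix.one_mul,
      hWU]
  have hQJ : Q * blk (MonoidAlgebra ℤ Γ) n m = blk (MonoidAlgebra ℤ Γ) k l * Q := by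
    have h1 : E * U' = U' * J := by
      rw [hE, Matrix.mul_assoc, hWU, Matrix.mul_one]
    rw [hQ, ← hJ, Matrix.mul_assoc, ← h1, ← Matrix.mul_assoc, hPE, Matrix.mul_assoc]
  have hkl : k = n ∧ l = m := by
    refine blk_rank (ma Q) (ma S) ?_ ?_ ?_
    · rw [← ma_mul, hQS, hma1]
    · rw [← ma_mul, hSQ, hma1]
    · have h1 : ∀ a b, ma (blk (MonoidAlgebra ℤ Γ) a b) = blk ℤ a b := fun a b => by
        rw [← mi_blk, ma_mi]
      rw [← h1, ← ma_mul, hQJ, ma_mul, h1]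
  obtain ⟨rfl, rfl⟩ := hkl
  -- the blocks
  have hblkQ : ∀ X : Matrix (Fin k ⊕ Fin l) (Fin k ⊕ Fin l) (MonoidAlgebra ℤ Γ),
      X * blk (MonoidAlgebra ℤ Γ) k l = blk (MonoidAlgebra ℤ Γ) k l * X → X = fromBlocks X.toBlocks₁₁ 0 0 X.toBlocks₂₂ := by
    intro X hX
    have h1 := Matrix.fromBlocks_toBlocks X
    rw [← h1] at hX
    unfold blk at hX
    rw [fromBlocks_multiply, fromBlocks_multiply, fromBlocks_inj] at hX
    simp only [Matrix.mul_one, Matrix.mul_zero, add_zero, Matrix.one_mul, Matrix.zero_mul] at hX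
    conv_lhs => rw [← h1]
    rw [← hX.2.1, hX.2.2.1]
  have hQb := hblkQ Q hQJ
  have hSb := hblkQ S (by
    calc S * blk (MonoidAlgebra ℤ Γ) k l = S * blk (MonoidAlgebra ℤ Γ) k l * (Q * S) := by rw [hQS, Matrix.mul_one]
      _ = S * (blk (MonoidAlgebra ℤ Γ) k l * Q) * S := by simp only [Matrix.mul_assoc]
      _ = S * (Q * blk (MonoidAlgebra ℤ Γ) k l) * S := by rw [hQJ]
      _ = (S * Q) * (blk (MonoidAlgebra ℤ Γ) k l * S) := by simp only [Matrix.mul_assoc]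
      _ = _ := by rw [hSQ, Matrix.one_mul])
  rw [hQb, hSb, fromBlocks_multiply, ← fromBlocks_one, fromBlocks_inj] at hQS hSQ
  simp only [Matrix.mul_zero, Matrix.zero_mul, add_zero, zero_add] at hQS hSQ
  refine ⟨⟨Q.toBlocks₁₁, S.toBlocks₁₁, hQS.1, hSQ.1⟩, (P * C * Pᵀ).toBlocks₁₁, ?_⟩
  have h1 : Q * D * adj Q = mi Γ (P * C * Pᵀ) := by
    rw [hQ, adj_mul, adj_mi, mi_mul, mi_mul, ← hU2]
    simp only [Matrix.mul_assoc]
  have h2 : adj (fromBlocks Q.toBlocks₁₁ 0 0 Q.toBlocks₂₂) =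
      fromBlocks (adj Q.toBlocks₁₁) 0 0 (adj Q.toBlocks₂₂) := by
    ext1 i j
    rcases i with i | i <;> rcases j with j | j
    · rfl
    · exact bar_zero
    · exact bar_zero
    · rfl
  have h3 : (mi Γ (P * C * Pᵀ) : Matrix _ _ (MonoidAlgebra ℤ Γ)).toBlocks₁₁ =
      ((P * C * Pᵀ).toBlocks₁₁).map (MonoidAlgebra.single 1) := rfl
  rw [← h3, ← h1]
  conv_rhs => rw [hQb]
  rw [h2, hD, fromBlocks_multiply, fromBlocks_multiply, toBlocks_fromBlocks₁₁]
  simp

end Pool.Agent.Q184.DF
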