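import Pool.Agent.Q184.DF.Main

/-!
Positive definite invertible forms are strictly positive.
-/

set_option autoImplicit false

namespace Pool.Agent.Q184.DF

open Finset Filter Matrix

variable {Γ : Type} [Group Γ] {n : ℕ}

/-- the square sum of the coefficients -/
noncomputable def nrm (a : MonoidAlgebra ℤ Γ) : ℤ := ∑ g ∈ a.coeff.support, (a.coeff g) ^ 2

lemma coeff_mul_bar (a : MonoidAlgebra ℤ Γ) : (a * bar a).coeff 1 = nrm a := by
  rw [MonoidAlgebra.coeff_mul_apply_left, Finsupp.sum]
  unfold nrm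
  refine Finset.sum_congr rfl fun g _ => ?_
  rw [coeff_bar]
  simp [sq]

lemma nrm_nonneg (a : MonoidAlgebra ℤ Γ) : 0 ≤ nrm a :=
  Finset.sum_nonneg fun _ _ => sq_nonneg _

lemma bar_neg (x : MonoidAlgebra ℤ Γ) : bar (-x) = -bar x := by
  ext g; rw [coeff_bar]; simp [coeff_bar]

lemma two_ip_le (a b : MonoidAlgebra ℤ Γ) : 2 * |(a * bar b).coeff 1| ≤ nrm a + nrm b := by
  have hs : (b * bar a).coeff 1 = (a * bar b).coeff 1 := by
    have h : b * bar a = bar (a * bar b) := by rw [bar_mul, bar_bar]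
    rw [h, coeff_bar, inv_one]
  have h1 := nrm_nonneg (a + b)
  have h2 := nrm_nonneg (a + -b)
  rw [← coeff_mul_bar, bar_add, add_mul, mul_add, mul_add, MonoidAlgebra.coeff_add,
    MonoidAlgebra.coeff_add, MonoidAlgebra.coeff_add, Finsupp.add_apply, Finsupp.add_apply,
    Finsupp.add_apply, coeff_mul_bar, coeff_mul_bar, hs] at h1
  rw [← coeff_mul_bar, bar_add, add_mul, mul_add, mul_add, MonoidAlgebra.coeff_add,
    MonoidAlgebra.coeff_add, MonoidAlgebra.coeff_add, Finsupp.add_apply, Finsupp.add_apply,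
    Finsupp.add_apply, coeff_mul_bar, bar_neg, neg_mul_neg, coeff_mul_bar, mul_neg, neg_mul,
    MonoidAlgebra.coeff_neg, MonoidAlgebra.coeff_neg, Finsupp.neg_apply, Finsupp.neg_apply,
    hs] at h2
  rcases abs_cases ((a * bar b).coeff 1) with ⟨h3, _⟩ | ⟨h3, _⟩ <;> rw [h3] <;> linarith

lemma nrm_mul_single (a : MonoidAlgebra ℤ Γ) (u : Γ) :
    nrm (a * MonoidAlgebra.single u (1 : ℤ)) = nrm a := by
  rw [← coeff_mul_bar, bar_mul, bar_single, mul_assoc, ← mul_assoc (MonoidAlgebra.single u 1),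
    MonoidAlgebra.single_mul_single, mul_inv_cancel, one_mul, ← MonoidAlgebra.one_def, one_mul,
    coeff_mul_bar]

/-- the total square sum -/
noncomputable def tot (x : Fin n → MonoidAlgebra ℤ Γ) : ℤ := ∑ i, nrm (x i)

lemma nrm_le_tot (x : Fin n → MonoidAlgebra ℤ Γ) (i : Fin n) : nrm (x i) ≤ tot x :=
  Finset.single_le_sum (f := fun i => nrm (x i)) (fun i _ => nrm_nonneg _) (Finset.mem_univ i)

lemma term_le (x : Fin n → MonoidAlgebra ℤ Γ) (k l : Fin n) (d : MonoidAlgebra ℤ Γ) :
    |(x k * d * bar (x l)).coeff 1| ≤ (∑ u ∈ d.coeff.support, |d.coeff u|) * tot x := by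
  have h1 : x k * d * bar (x l) = ∑ u ∈ d.coeff.support,
      (d.coeff u) • (x k * MonoidAlgebra.single u (1 : ℤ) * bar (x l)) := by
    conv_lhs => rw [← MonoidAlgebra.sum_coeff_single d]
    rw [Finsupp.sum, Finset.mul_sum, Finset.sum_mul]
    refine Finset.sum_congr rfl fun u _ => ?_
    rw [← smul_mul_assoc, ← mul_smul_comm]
    congr 2
    rw [MonoidAlgebra.smul_single, smul_eq_mul, mul_one]
  rw [h1, MonoidAlgebra.coeff_sum, Finsupp.finsetSum_apply, Finset.sum_mul]
  refine (Finset.abs_sum_le_sum_abs _ _).trans (Finset.sum_le_sum fun u _ => ?_)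
  rw [MonoidAlgebra.coeff_smul, Finsupp.smul_apply, smul_eq_mul, abs_mul]
  refine mul_le_mul_of_nonneg_left ?_ (abs_nonneg _)
  have h2 := two_ip_le (x k * MonoidAlgebra.single u (1 : ℤ)) (x l)
  rw [nrm_mul_single] at h2
  have h3 := nrm_le_tot x k
  have h4 := nrm_le_tot x l
  linarith

lemma herm_le (D : Matrix (Fin n) (Fin n) (MonoidAlgebra ℤ Γ)) :
    ∃ C : ℕ, ∀ x : Fin n → MonoidAlgebra ℤ Γ, (herm D x x).coeff 1 ≤ C * tot x := by
  refine ⟨(∑ k, ∑ l, ∑ u ∈ (D k l).coeff.support, |(D k l).coeff u|).toNat, fun x => ?_⟩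
  have h0 : 0 ≤ tot x := Finset.sum_nonneg fun i _ => nrm_nonneg _
  refine le_trans ?_ (mul_le_mul_of_nonneg_right (Int.self_le_toNat _) h0)
  unfold herm
  rw [MonoidAlgebra.coeff_sum, Finsupp.finsetSum_apply, Finset.sum_mul]
  refine Finset.sum_le_sum fun k _ => ?_
  rw [MonoidAlgebra.coeff_sum, Finsupp.finsetSum_apply, Finset.sum_mul]
  refine Finset.sum_le_sum fun l _ => ?_
  exact (le_abs_self _).trans (term_le x k l (D k l))

variable {A : Matrix (Fin n) (Fin n) (MonoidAlgebra ℤ Γ)}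

lemma cauchy (hs : ∀ x y, form A x y = form A y x) (hp : ∀ x, 0 ≤ form A x x)
    (x y : Fin n → MonoidAlgebra ℤ Γ) : form A x y ^ 2 ≤ form A x x * form A y y := by
  have key : ∀ a b : ℤ, 0 ≤ a * a * form A x x - 2 * (a * b) * form A x y + b * b * form A y y := by
    intro a b
    have h := hp (a • x - b • y)
    simp only [map_sub, AddMonoidHom.sub_apply, map_zsmul, AddMonoidHom.coe_smul, Pi.smul_apply,
      smul_eq_mul, hs y x] at h
    linarith
  rcases (hp y).eq_or_lt with h0 | h0
  · -- then `form A x y = 0`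
    have h1 := key 1 (form A x x * form A x y + form A x y)
    have h2 := hp x
    rw [← h0] at h1 ⊢
    have h3 : 0 ≤ form A x x - 2 * (form A x x + 1) * form A x y ^ 2 := by linarith
    rw [mul_zero]
    by_contra h4
    push Not at h4
    have h5 : 1 ≤ form A x y ^ 2 := h4
    nlinarith
  · have h1 := key (form A y y) (form A x y)
    have h2 : 0 ≤ form A y y * (form A x x * form A y y - form A x y ^ 2) := by linarith
    have h3 := nonneg_of_mul_nonneg_right h2 h0
    linarith

/-- A positive definite invertible form is strictly positive. -/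
theorem strict_of_unit (hA : adj A = A) (hU : IsUnit A)
    (hpos : ∀ x : Fin n → MonoidAlgebra ℤ Γ, x ≠ 0 → 0 < (herm A x x).coeff 1) : Strict A := by
  obtain ⟨⟨A', D, hAD, hDA⟩, rfl⟩ := hU
  change adj A' = A' at hA
  change ∀ x : Fin n → MonoidAlgebra ℤ Γ, x ≠ 0 → 0 < (herm A' x x).coeff 1 at hpos
  change Strict A'
  have hD : adj D = D := by
    have h1 : adj D * A' = 1 := by
      have h2 := congrArg adj hAD
      rw [adj_mul, hA, adj_one] at h2
      exact h2
    calc adj D = adj D * (A' * D) := by rw [hAD, mul_one]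
      _ = D := by rw [← mul_assoc, h1, one_mul]
  obtain ⟨C, hC⟩ := herm_le D
  have hs : ∀ x y, form A' x y = form A' y x := by
    intro x y
    rw [form_apply, form_apply, herm_symm A' hA y x, coeff_bar, inv_one]
  have hp : ∀ x, 0 ≤ form A' x x := by
    intro x
    by_cases hx : x = 0
    · rw [hx, map_zero]
    · exact (hpos x hx).le
  refine ⟨C, fun x => ?_⟩
  have htot : ∑ i, ∑ g ∈ (x i).coeff.support, ((x i).coeff g) ^ 2 = tot x := rfl
  rw [htot]
  set y : Fin n → MonoidAlgebra ℤ Γ := x ᵥ* D with hy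
  have hbar : ∀ l, bar (y l) = ∑ m, D l m * bar (x m) := by
    intro l
    change bar (∑ m, x m * D m l) = _
    rw [bar_sum]
    refine Finset.sum_congr rfl fun m _ => ?_
    rw [bar_mul, ← adj_apply, hD]
  have hz : ∀ z : Fin n → MonoidAlgebra ℤ Γ, herm A' z y = ∑ k, z k * bar (x k) := by
    intro z
    unfold herm
    refine Finset.sum_congr rfl fun k _ => ?_
    have h1 : ∀ l, z k * A' k l * bar (y l) = ∑ m, z k * (A' k l * D l m) * bar (x m) := by
      intro l
      rw [hbar, Finset.mul_sum]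
      refine Finset.sum_congr rfl fun m _ => ?_
      noncomm_ring
    rw [Finset.sum_congr rfl fun l _ => h1 l, Finset.sum_comm]
    have h2 : ∀ m, ∑ l, z k * (A' k l * D l m) * bar (x m) =
        z k * ((A' * D) k m) * bar (x m) := by
      intro m
      rw [Matrix.mul_apply, Finset.mul_sum, Finset.sum_mul]
    rw [Finset.sum_congr rfl fun m _ => h2 m, hAD, Finset.sum_eq_single k]
    · rw [Matrix.one_apply_eq, mul_one]
    · intro m _ hm
      rw [Matrix.one_apply_ne (Ne.symm hm), mul_zero, zero_mul]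
    · intro hk; exact absurd (Finset.mem_univ _) hk
  have h1 : form A' x y = tot x := by
    rw [form_apply, hz, MonoidAlgebra.coeff_sum, Finsupp.finsetSum_apply]
    exact Finset.sum_congr rfl fun k _ => coeff_mul_bar _
  have h2 : form A' y y ≤ C * tot x := by
    have h3 : herm A' y y = herm D x x := by
      rw [hz]
      unfold herm
      rw [Finset.sum_comm]
      refine Finset.sum_congr rfl fun k _ => ?_
      change (∑ m, x m * D m k) * bar (x k) = _
      rw [Finset.sum_mul]
    rw [form_apply, h3]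
    exact hC x
  have h3 := cauchy hs hp x y
  rw [h1] at h3
  have h4 : 0 ≤ tot x := Finset.sum_nonneg fun i _ => nrm_nonneg _
  rcases h4.eq_or_lt with h5 | h5
  · rw [← h5]
    exact mul_nonneg (by positivity) (hp x)
  · have h6 : tot x * tot x ≤ tot x * (C * form A' x x) := by
      have h7 : form A' x x * form A' y y ≤ form A' x x * (C * tot x) :=
        mul_le_mul_of_nonneg_left h2 (hp x)
      calc tot x * tot x = tot x ^ 2 := by ring
        _ ≤ form A' x x * (C * tot x) := h3.trans h7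
        _ = _ := by ring
    exact le_of_mul_le_mul_left h6 h5

/-- The main theorem for invertible forms. -/
theorem extended_of_unit (htf : ∀ g : Γ, ∀ k : ℕ, 0 < k → g ^ k = 1 → g = 1)
    (hA : adj A = A) (hU : IsUnit A)
    (hpos : ∀ x : Fin n → MonoidAlgebra ℤ Γ, x ≠ 0 → 0 < (herm A x x).coeff 1)
    (hgen : Submodule.span (MonoidAlgebra ℤ Γ)
      {x : Fin n → MonoidAlgebra ℤ Γ | (herm A x x).coeff 1 ≤ 2} = ⊤) :
    ∃ (U : (Matrix (Fin n) (Fin n) (MonoidAlgebra ℤ Γ))ˣ) (B : Matrix (Fin n) (Fin n) ℤ),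
      U.val * A * adj U.val = B.map (MonoidAlgebra.single 1) :=
  extended_of_dat htf (dat_of_strict A hA (strict_of_unit hA hU hpos)) hgen

end Pool.Agent.Q184.DF
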